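import Mathlib

-- part Pool.Agent.P.MP_3f5ded_co.Basic
section

set_option autoImplicit false

namespace Pool.Agent.P.MP_3f5ded_co

/-- Circular distance at least one on the circle of length `r`. -/
def Far (r x y : ℝ) : Prop := ∀ n : ℤ, 1 ≤ |x - y - n * r|

/-- Circular distance at most `δ` on the circle of length `r`. -/
def Near (r δ x y : ℝ) : Prop := ∃ n : ℤ, |x - y - n * r| ≤ δ

lemma Near.refl (r x : ℝ) : Near r 0 x x := ⟨0, by simp⟩

lemma Near.of_abs {r δ x y : ℝ} (h : |x - y| ≤ δ) : Near r δ x y := ⟨0, by simpa using h⟩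

lemma Near.symm {r δ x y : ℝ} (h : Near r δ x y) : Near r δ y x := by
  obtain ⟨n, hn⟩ := h
  refine ⟨-n, ?_⟩
  have : y - x - ((-n : ℤ) : ℝ) * r = -(x - y - n * r) := by push_cast; ring
  rw [this, abs_neg]; exact hn

lemma Near.trans {r δ η x y z : ℝ} (h : Near r δ x y) (h' : Near r η y z) :
    Near r (δ + η) x z := by
  obtain ⟨n, hn⟩ := h
  obtain ⟨m, hm⟩ := h'
  refine ⟨n + m, ?_⟩
  have : x - z - ((n + m : ℤ) : ℝ) * r = (x - y - n * r) + (y - z - m * r) := by push_cast; ring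
  rw [this]
  exact (abs_add_le _ _).trans (add_le_add hn hm)

lemma Near.mono {r δ η x y : ℝ} (h : Near r δ x y) (h' : δ ≤ η) : Near r η x y := by
  obtain ⟨n, hn⟩ := h
  exact ⟨n, hn.trans h'⟩

lemma Near.trans0 {r δ x y z : ℝ} (h : Near r δ x y) (h' : Near r 0 y z) : Near r δ x z := by
  simpa using h.trans h'

lemma Near.trans0' {r δ x y z : ℝ} (h : Near r 0 x y) (h' : Near r δ y z) : Near r δ x z := by
  simpa using h.trans h'

lemma Far.symm {r x y : ℝ} (h : Far r x y) : Far r y x := by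
  intro n
  have : y - x - n * r = -(x - y - ((-n : ℤ) : ℝ) * r) := by push_cast; ring
  rw [this, abs_neg]; exact h _

lemma Far.le {r δ x y : ℝ} (h : Far r x y) (h' : Near r δ x y) : 1 ≤ δ := by
  obtain ⟨n, hn⟩ := h'
  exact (h n).trans hn

lemma Far.congr {r x y x' y' : ℝ} (h : Far r x y) (hx : Near r 0 x x') (hy : Near r 0 y y') :
    Far r x' y' := by
  intro n
  obtain ⟨a, ha⟩ := hx
  obtain ⟨b, hb⟩ := hy
  have ha' := abs_nonpos_iff.mp ha
  have hb' := abs_nonpos_iff.mp hb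
  have := h (n + a - b)
  have e : x - y - ((n + a - b : ℤ) : ℝ) * r = x' - y' - n * r := by push_cast; linarith
  rwa [e] at this

lemma Far.of_bounds {r x y : ℝ} (h1 : 1 ≤ y - x) (h2 : y - x ≤ r - 1) : Far r x y := by
  intro n
  have hr : 0 ≤ r := by linarith
  rcases le_or_gt 0 n with hn | hn
  · have : (0 : ℝ) ≤ n := by exact_mod_cast hn
    have : 0 ≤ n * r := mul_nonneg this hr
    rw [le_abs]; right; linarith
  · have : (n : ℝ) ≤ -1 := by exact_mod_cast (show n ≤ -1 by omega)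
    have : n * r ≤ -1 * r := mul_le_mul_of_nonneg_right this hr
    rw [le_abs]; left; linarith

lemma Near.always {r δ : ℝ} (hr : 0 < r) (h : r ≤ δ) (x y : ℝ) : Near r δ x y := by
  refine ⟨⌊(x - y) / r⌋, ?_⟩
  have h1 := Int.floor_le ((x - y) / r)
  have h2 := Int.lt_floor_add_one ((x - y) / r)
  rw [le_div_iff₀ hr] at h1
  rw [div_lt_iff₀ hr] at h2
  rw [abs_le]; constructor <;> linarith

/-- A frame: the lifted, sorted colours around a vertex of degree `k`. -/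
structure Fr (k : ℕ) (r : ℝ) (f : ℤ → ℝ) : Prop where
  step : ∀ i, f i + 1 ≤ f (i + 1)
  per : ∀ i, f (i + k) = f i + r

namespace Fr
variable {k : ℕ} {r : ℝ} {f g : ℤ → ℝ}

lemma monoN (h : Fr k r f) (i : ℤ) (n : ℕ) : f i + n ≤ f (i + n) := by
  induction n with
  | zero => simp
  | succ n ih =>
    have := h.step (i + n)
    push_cast
    rw [← add_assoc i]
    linarith

lemma mono (h : Fr k r f) {i j : ℤ} (hij : i ≤ j) : f i + (j - i) ≤ f j := by
  obtain ⟨n, rfl⟩ := Int.le.dest hij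
  have := h.monoN i n
  push_cast
  linarith

lemma perZ (h : Fr k r f) (i n : ℤ) : f (i + n * k) = f i + n * r := by
  induction n using Int.induction_on generalizing i with
  | zero => simp
  | succ n ih =>
    have e : i + ((n : ℤ) + 1) * k = (i + n * k) + k := by ring
    rw [e, h.per, ih]; push_cast; ring
  | pred n ih =>
    have e : i + (-(n : ℤ)) * k = (i + (-(n : ℤ) - 1) * k) + k := by ring
    have := ih i
    rw [e, h.per] at this
    push_cast at this ⊢; linarith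

lemma upper (h : Fr k r f) {i j : ℤ} (hj : j ≤ i + k) : f j ≤ f i + (j - i) + (r - k) := by
  have := h.mono hj
  rw [h.per] at this
  push_cast at this
  linarith

lemma eps_nonneg (h : Fr k r f) : 0 ≤ r - k := by
  have := h.monoN 0 k
  rw [h.per] at this
  linarith

lemma aligned (hf : Fr k r f) (hg : Fr k r g) (hk : 0 < k) {i0 : ℤ} (h : f i0 = g i0) (i : ℤ) :
    |f i - g i| ≤ r - k := by
  have hk' : (0 : ℤ) < k := by exact_mod_cast hk
  set n := (i - i0) / k with hn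
  set j := i0 + (i - i0) % k with hj
  have e : i = j + n * k := by
    have := Int.emod_add_mul_ediv (i - i0) k
    rw [hj, hn]; linarith
  have h0 : i0 ≤ j := by have := Int.emod_nonneg (i - i0) hk'.ne'; omega
  have h1 : j ≤ i0 + k := by have := Int.emod_lt_of_pos (i - i0) hk'; omega
  rw [e, hf.perZ, hg.perZ]
  have a1 := hf.mono h0
  have a2 := hg.mono h0
  have a3 := hf.upper h1
  have a4 := hg.upper h1
  rw [abs_le]; constructor <;> linarith

lemma close (h : Fr k r f) {i j : ℤ} {m : ℤ} (hm : 0 < m) (hd : |f i - f j| < m) : |i - j| < m := by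
  rw [abs_lt] at hd ⊢
  have hm' : (0 : ℝ) < m := by exact_mod_cast hm
  constructor
  · by_contra hc
    push Not at hc
    have := h.mono (show i ≤ j by omega)
    have h2 : ((i : ℝ) - j) ≤ -m := by exact_mod_cast hc
    linarith
  · by_contra hc
    push Not at hc
    have := h.mono (show j ≤ i by omega)
    have h2 : (m : ℝ) ≤ (i : ℝ) - j := by exact_mod_cast hc
    linarith

end Fr

/-- Two frames that stay within `δ` of each other. -/
def Al (δ : ℝ) (f g : ℤ → ℝ) : Prop := ∀ i, |f i - g i| ≤ δ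

lemma Al.symm {δ : ℝ} {f g : ℤ → ℝ} (h : Al δ f g) : Al δ g f := fun i => by
  rw [abs_sub_comm]; exact h i

lemma Al.trans {δ η : ℝ} {f g h : ℤ → ℝ} (h1 : Al δ f g) (h2 : Al η g h) : Al (δ + η) f h :=
  fun i => (abs_sub_le _ _ _).trans (add_le_add (h1 i) (h2 i))

lemma Al.mono {δ η : ℝ} {f g : ℤ → ℝ} (h1 : Al δ f g) (h : δ ≤ η) : Al η f g :=
  fun i => (h1 i).trans h

lemma Al.refl {δ : ℝ} (h : 0 ≤ δ) (f : ℤ → ℝ) : Al δ f f := fun i => by simpa using h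

lemma near_lift {k : ℕ} {r δ η : ℝ} {f g : ℤ → ℝ} (hg : Fr k r g) (ha : Al δ f g) {i j : ℤ}
    (hn : Near r η (f i) (g j)) {m : ℤ} (hm : 0 < m) (hs : δ + η < m) :
    ∃ n : ℤ, |i - (j + n * k)| < m ∧ |f i - g (j + n * k)| ≤ η := by
  obtain ⟨n, hn⟩ := hn
  have e : f i - g j - n * r = f i - g (j + n * k) := by rw [hg.perZ]; ring
  rw [e] at hn
  refine ⟨n, hg.close hm ?_, hn⟩
  have := ha i
  have h2 := abs_sub_le (g i) (f i) (g (j + n * k))
  rw [abs_sub_comm (g i) (f i)] at h2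
  linarith

lemma near_match {k : ℕ} {r δ η : ℝ} {f g : ℤ → ℝ} (hg : Fr k r g) (ha : Al δ f g) {i j : ℤ}
    (hn : Near r η (f i) (g j)) (hs : δ + η < 1) (hi : 0 ≤ i) (hi' : i < k) (hj : 0 ≤ j)
    (hj' : j < k) : i = j ∧ |f i - g j| ≤ η := by
  obtain ⟨n, h1, h2⟩ := near_lift hg ha hn (m := 1) one_pos (by simpa using hs)
  have e : i = j + n * k := by rw [abs_lt] at h1; omega
  have hn0 : n = 0 := by
    rcases lt_trichotomy n 0 with h | h | h
    · have : n * k ≤ -1 * k := mul_le_mul_of_nonneg_right (by omega) (by omega)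
      omega
    · exact h
    · have : 1 * (k : ℤ) ≤ n * k := mul_le_mul_of_nonneg_right (by omega) (by omega)
      omega
  subst hn0
  simp at e h2
  exact ⟨e, h2⟩

/-- The data of a frame at a vertex whose ports form the finite set `S`. -/
structure Good {A : Type} (k : ℕ) (r : ℝ) (S : Finset A) (c : A → ℝ) (f : ℤ → ℝ) (κ : A → ℤ) :
    Prop where
  fr : Fr k r f
  lo : ∀ y ∈ S, 0 ≤ κ y
  hi : ∀ y ∈ S, κ y < k
  near : ∀ y ∈ S, Near r 0 (c y) (f (κ y))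
  inj : ∀ y ∈ S, ∀ z ∈ S, κ y = κ z → y = z

lemma Good.image {A : Type} {k : ℕ} {r : ℝ} {S : Finset A} {c : A → ℝ} {f : ℤ → ℝ} {κ : A → ℤ}
    (h : Good k r S c f κ) (hS : S.card = k) : S.image κ = Finset.Ico (0 : ℤ) k := by
  apply Finset.eq_of_subset_of_card_le
  · intro i hi
    obtain ⟨y, hy, rfl⟩ := Finset.mem_image.mp hi
    exact Finset.mem_Ico.mpr ⟨h.lo y hy, h.hi y hy⟩
  · rw [Finset.card_image_of_injOn (fun y hy z hz e => h.inj y hy z hz e), hS]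
    simp

lemma Good.surj {A : Type} {k : ℕ} {r : ℝ} {S : Finset A} {c : A → ℝ} {f : ℤ → ℝ} {κ : A → ℤ}
    (h : Good k r S c f κ) (hS : S.card = k) {i : ℤ} (h0 : 0 ≤ i) (h1 : i < k) :
    ∃ y ∈ S, κ y = i := by
  have : i ∈ S.image κ := by rw [h.image hS]; exact Finset.mem_Ico.mpr ⟨h0, h1⟩
  simpa using this

lemma Good.sum {A : Type} {k : ℕ} {r : ℝ} {S : Finset A} {c : A → ℝ} {f : ℤ → ℝ} {κ : A → ℤ}
    (h : Good k r S c f κ) (hS : S.card = k) : ∑ y ∈ S, κ y = ∑ i ∈ Finset.Ico (0 : ℤ) k, i := by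
  rw [← h.image hS, Finset.sum_image (fun y hy z hz e => h.inj y hy z hz e)]

theorem exists_good {A : Type} {k : ℕ} {r : ℝ} (hr : 0 < r) (S : Finset A) (hS : S.card = k)
    (c : A → ℝ) (hc : ∀ y ∈ S, ∀ z ∈ S, y ≠ z → Far r (c y) (c z)) (y0 : A) (hy0 : y0 ∈ S)
    (i0 : ℤ) (h0 : 0 ≤ i0) (h1 : i0 < k) (x : ℝ) (hx : Near r 0 (c y0) x) (hr1 : 1 ≤ r) :
    ∃ f κ, Good k r S c f κ ∧ κ y0 = i0 ∧ f i0 = x := by
  classical
  have hk : 0 < k := by omega
  have hkz : (0 : ℤ) < k := by exact_mod_cast hk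
  set g : A → ℝ := fun y => toIcoMod hr 0 (c y - x) with hg
  have gn : ∀ y, Near r 0 (c y) (x + g y) := by
    intro y
    refine ⟨toIcoDiv hr 0 (c y - x), ?_⟩
    have := toIcoMod_add_toIcoDiv_zsmul hr 0 (c y - x)
    simp only [zsmul_eq_mul] at this
    rw [abs_nonpos_iff]
    simp only [hg]; linarith
  have g0 : ∀ y, 0 ≤ g y := fun y => (toIcoMod_mem_Ico hr 0 _).1
  have g1 : ∀ y, g y < r := fun y => by simpa using (toIcoMod_mem_Ico hr 0 (c y - x)).2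
  have gy0 : g y0 = 0 := by
    obtain ⟨n, hn⟩ := hx
    rw [abs_nonpos_iff] at hn
    simp only [hg]
    rw [toIcoMod_eq_iff]
    exact ⟨⟨le_refl _, by simpa using hr⟩, n, by simp; linarith⟩
  have gfar : ∀ y ∈ S, ∀ z ∈ S, y ≠ z → Far r (g y) (g z) := by
    intro y hy z hz hne n
    have := ((hc y hy z hz hne).congr (gn y) (gn z)) n
    have e : x + g y - (x + g z) - n * r = g y - g z - n * r := by ring
    rwa [e] at this
  have ginj : Set.InjOn g S := by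
    intro y hy z hz e
    by_contra hne
    have := gfar y hy z hz hne 0
    rw [e] at this
    norm_num at this
  have hT : (S.image g).card = k := by rw [Finset.card_image_of_injOn ginj, hS]
  set h := (S.image g).orderEmbOfFin hT with hh
  have hmem : ∀ i, ∃ y ∈ S, g y = h i := fun i => by
    have := Finset.orderEmbOfFin_mem (S.image g) hT i
    exact Finset.mem_image.mp this
  have hsur : ∀ y ∈ S, ∃ i, h i = g y := fun y hy => by
    have : g y ∈ Set.range h := by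
      rw [hh, Finset.range_orderEmbOfFin]
      exact Finset.mem_coe.mpr (Finset.mem_image_of_mem g hy)
    exact this
  have hgap : ∀ i j : Fin k, i < j → h i + 1 ≤ h j := by
    intro i j hij
    obtain ⟨y, hy, ey⟩ := hmem i
    obtain ⟨z, hz, ez⟩ := hmem j
    have hlt : h i < h j := h.strictMono hij
    have hne : y ≠ z := by rintro rfl; rw [ey] at ez; exact hlt.ne ez
    have := gfar y hy z hz hne 0
    rw [ey, ez] at this
    simp only [Int.cast_zero, zero_mul, sub_zero] at this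
    rw [abs_of_neg (by linarith)] at this
    linarith
  have hzero : h ⟨0, hk⟩ = 0 := by
    obtain ⟨i, hi⟩ := hsur y0 hy0
    obtain ⟨y, hy, ey⟩ := hmem ⟨0, hk⟩
    have : h ⟨0, hk⟩ ≤ h i := h.monotone (Nat.zero_le _)
    have := g0 y
    rw [gy0] at hi
    linarith
  have htop : ∀ i, h i ≤ r - 1 := by
    intro i
    obtain ⟨y, hy, ey⟩ := hmem i
    by_cases hne : y = y0
    · rw [← ey, hne, gy0]; linarith
    · have := gfar y hy y0 hy0 hne 1
      rw [gy0, ey] at this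
      have h2 := g1 y
      rw [ey] at h2
      simp only [Int.cast_one, one_mul, sub_zero] at this
      rw [abs_of_neg (by linarith)] at this
      linarith
  have hmod : ∀ i : ℤ, (i % k).toNat < k := fun i => by
    have := Int.emod_lt_of_pos i hkz
    have := Int.emod_nonneg i hkz.ne'
    omega
  set f0 : ℤ → ℝ := fun i => h ⟨(i % k).toNat, hmod i⟩ + ((i / k : ℤ) : ℝ) * r with hf0
  have f0eq : ∀ (j : Fin k) (n : ℤ), f0 (j + n * k) = h j + n * r := by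
    intro j n
    have e1 : ((j : ℤ) + n * k) % k = j := by
      rw [Int.add_mul_emod_self_right]
      exact Int.emod_eq_of_lt (by omega) (by exact_mod_cast j.2)
    have e2 : ((j : ℤ) + n * k) / k = n := by
      rw [Int.add_mul_ediv_right _ _ hkz.ne', Int.ediv_eq_zero_of_lt (by omega) (by exact_mod_cast j.2)]
      simp
    simp only [hf0, e1, e2]
    congr 2
  have dec : ∀ i : ℤ, ∃ (j : Fin k) (n : ℤ), i = j + n * k := by
    intro i
    refine ⟨⟨(i % k).toNat, hmod i⟩, i / k, ?_⟩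
    have := Int.emod_add_mul_ediv i k
    have := Int.emod_nonneg i hkz.ne'
    simp only [Int.toNat_of_nonneg this]
    linarith
  have f0fr : Fr k r f0 := by
    constructor
    · intro i
      obtain ⟨j, n, rfl⟩ := dec i
      by_cases hj : (j : ℕ) + 1 < k
      · have e : (j : ℤ) + n * k + 1 = ((⟨j + 1, hj⟩ : Fin k) : ℤ) + n * k := by push_cast; ring
        rw [e, f0eq, f0eq]
        have := hgap j ⟨j + 1, hj⟩ (by simp [Fin.lt_def])
        linarith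
      · have e : (j : ℤ) + n * k + 1 = ((⟨0, hk⟩ : Fin k) : ℤ) + (n + 1) * k := by
          have := j.2
          have : (j : ℤ) + 1 = k := by omega
          push_cast; linarith
        rw [e, f0eq, f0eq, hzero]
        have := htop j
        push_cast; linarith
    · intro i
      obtain ⟨j, n, rfl⟩ := dec i
      have e : (j : ℤ) + n * k + k = j + (n + 1) * k := by ring
      rw [e, f0eq, f0eq]; push_cast; ring
  have hsur' : ∀ y, ∃ i : Fin k, y ∈ S → h i = g y := fun y => by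
    by_cases hy : y ∈ S
    · obtain ⟨i, hi⟩ := hsur y hy
      exact ⟨i, fun _ => hi⟩
    · exact ⟨⟨0, hk⟩, fun h => absurd h hy⟩
  choose ρ hρ using hsur'
  refine ⟨fun i => x + f0 (i - i0), fun y => (ρ y + i0) % k, ⟨⟨?_, ?_⟩, ?_, ?_, ?_, ?_⟩, ?_, ?_⟩
  · intro i
    have := f0fr.step (i - i0)
    have e : i + 1 - i0 = i - i0 + 1 := by ring
    rw [e]; linarith
  · intro i
    have := f0fr.per (i - i0)
    have e : i + k - i0 = i - i0 + k := by ring
    rw [e]; linarith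
  · intro y _; exact Int.emod_nonneg _ hkz.ne'
  · intro y _; exact Int.emod_lt_of_pos _ hkz
  · intro y hy
    refine (gn y).trans0 ?_
    have e : ((ρ y : ℤ) + i0) % k - i0 = ρ y + (-(((ρ y : ℤ) + i0) / k)) * k := by
      have := Int.emod_add_mul_ediv ((ρ y : ℤ) + i0) k
      linarith
    simp only [e, f0eq, hρ y hy]
    refine ⟨((ρ y : ℤ) + i0) / k, ?_⟩
    rw [abs_nonpos_iff]; push_cast; ring
  · intro y hy z hz e
    have e' : ((ρ y : ℤ)) % k = (ρ z : ℤ) % k := by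
      have := Int.ModEq.add_right_cancel' i0 (show (ρ y : ℤ) + i0 ≡ ρ z + i0 [ZMOD k] from e)
      exact this
    rw [Int.emod_eq_of_lt (by omega) (by exact_mod_cast (ρ y).2),
      Int.emod_eq_of_lt (by omega) (by exact_mod_cast (ρ z).2)] at e'
    have e'' : ρ y = ρ z := Fin.ext (by exact_mod_cast e')
    apply ginj hy hz
    rw [← hρ y hy, ← hρ z hz, e'']
  · have : ρ y0 = ⟨0, hk⟩ := by
      apply h.injective
      rw [hρ y0 hy0, gy0, hzero]
    simp only [this]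
    simpa using Int.emod_eq_of_lt h0 h1
  · have := f0eq ⟨0, hk⟩ 0
    simp only [sub_self]
    simp at this
    rw [this, hzero]; simp

end Pool.Agent.P.MP_3f5ded_co
end

-- part Pool.Agent.P.MP_3f5ded_co.MLemma
section

set_option autoImplicit false

namespace Pool.Agent.P.MP_3f5ded_co

open Finset

variable {W : Type} [Fintype W] [DecidableEq W]

/-- Neighbours of `x` in the cocktail party graph given by `ν`. -/
def nb (ν : W → W) (x : W) : Finset W := (univ.erase x).erase (ν x)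

lemma mem_nb {ν : W → W} {x y : W} : y ∈ nb ν x ↔ y ≠ ν x ∧ y ≠ x := by
  simp [nb]

lemma card_nb {k : ℕ} (hW : Fintype.card W = k + 2) {ν : W → W} (hν' : ∀ x, ν x ≠ x) (x : W) :
    (nb ν x).card = k := by
  rw [nb, card_erase_of_mem (by simp [hν' x]), card_erase_of_mem (by simp), card_univ, hW]
  omega

lemma nb_symm {ν : W → W} (hν : ∀ x, ν (ν x) = x) {x y : W} (h : y ∈ nb ν x) : x ∈ nb ν y := by
  rw [mem_nb] at h ⊢
  refine ⟨fun e => h.1 (by rw [e, hν]), fun e => h.2 e.symm⟩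

lemma M_half {k : ℕ} (hk : 4 ≤ k) (hW : Fintype.card W = k + 2) {ν : W → W}
    (hν : ∀ x, ν (ν x) = x) (hν' : ∀ x, ν x ≠ x) {u v : W} (huv : v ∈ nb ν u) {r : ℝ}
    {C : W → W → ℝ} {F : W → ℤ → ℝ} {κ : W → W → ℤ}
    (hG : ∀ x, Good k r (nb ν x) (C x) (F x) (κ x))
    (hE : ∀ x, ∀ y ∈ nb ν x, ¬(x = u ∧ y = v) → ¬(x = v ∧ y = u) →
      κ x y = κ y x ∧ F x (κ x y) = F y (κ x y))
    (hu : κ u v = 0) (hv : κ v u = 0) : F v 0 ≤ F u 0 + (r - k) := by
  have hvu := nb_symm hν huv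
  obtain ⟨h1, h2⟩ := mem_nb.mp huv
  obtain ⟨h3, h4⟩ := mem_nb.mp hvu
  set u' := ν u with hu'
  set v' := ν v with hv'
  have n1 : u' ≠ u := hν' u
  have n2 : v' ≠ v := hν' v
  have n3 : u' ≠ v' := fun e => h2 (by rw [← hν v, ← hν u, ← hu', ← hv', e])
  have eu : ν u' = u := hν u
  have ev : ν v' = v := hν v
  set A : Finset W := ((nb ν u).erase v).erase v' with hA
  have memA : ∀ w, w ∈ A ↔ w ≠ v' ∧ w ≠ v ∧ w ≠ u' ∧ w ≠ u := by
    intro w; simp [hA, mem_nb, ← hu']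
  have v'u : v' ∈ nb ν u := mem_nb.mpr ⟨n3.symm, h3.symm⟩
  have u'v : u' ∈ nb ν v := mem_nb.mpr ⟨n3, h1.symm⟩
  have uv' : u ∈ nb ν v' := nb_symm hν v'u
  have u'v' : u' ∈ nb ν v' := mem_nb.mpr ⟨by rw [ev]; exact h1.symm, n3⟩
  have vu' : v ∈ nb ν u' := nb_symm hν u'v
  have v'u' : v' ∈ nb ν u' := nb_symm hν u'v'
  have cA : A.card + 2 = k := by
    rw [hA, card_erase_of_mem (mem_erase.mpr ⟨n2, v'u⟩), card_erase_of_mem huv, card_nb hW hν']
    omega
  have A2 : A = ((nb ν v).erase u).erase u' := by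
    ext w; rw [memA]; simp [mem_nb, ← hv']; tauto
  have A3 : A = ((nb ν v').erase u).erase u' := by
    ext w; rw [memA]; simp [mem_nb, ev]; tauto
  set T := ∑ i ∈ Finset.Ico (0 : ℤ) k, i with hT
  have s1 : ∑ w ∈ A, κ u w + κ u v' + κ u v = T := by
    rw [hA, sum_erase_add _ _ (mem_erase.mpr ⟨n2, v'u⟩), sum_erase_add _ _ huv]
    exact (hG u).sum (card_nb hW hν' u)
  have s2 : ∑ w ∈ A, κ v w + κ v u' + κ v u = T := by
    rw [A2, sum_erase_add _ _ (mem_erase.mpr ⟨n1, u'v⟩), sum_erase_add _ _ hvu]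
    exact (hG v).sum (card_nb hW hν' v)
  have s3 : ∑ w ∈ A, κ v' w + κ v' u' + κ v' u = T := by
    rw [A3, sum_erase_add _ _ (mem_erase.mpr ⟨n1, u'v'⟩), sum_erase_add _ _ uv']
    exact (hG v').sum (card_nb hW hν' v')
  have Au : ∀ w ∈ A, w ∈ nb ν u := fun w hw => mem_of_mem_erase (mem_of_mem_erase hw)
  have Av : ∀ w ∈ A, w ∈ nb ν v := fun w hw => by
    rw [A2] at hw; exact mem_of_mem_erase (mem_of_mem_erase hw)
  have Av' : ∀ w ∈ A, w ∈ nb ν v' := fun w hw => by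
    rw [A3] at hw; exact mem_of_mem_erase (mem_of_mem_erase hw)
  -- edges
  have Eu : ∀ w ∈ nb ν u, w ≠ v → κ u w = κ w u ∧ F u (κ u w) = F w (κ u w) :=
    fun w hw hne => hE u w hw (fun h => hne h.2) (fun h => h2 h.1.symm)
  have Ev : ∀ w ∈ nb ν v, w ≠ u → κ v w = κ w v ∧ F v (κ v w) = F w (κ v w) :=
    fun w hw hne => hE v w hw (fun h => h2 h.1) (fun h => hne h.2)
  have Ev' : ∀ w ∈ nb ν v', κ v' w = κ w v' ∧ F v' (κ v' w) = F w (κ v' w) :=
    fun w hw => hE v' w hw (fun h => h3 h.1.symm) (fun h => n2 h.1)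
  have start : ∀ w ∈ nb ν u, w ≠ v → F w (κ u w) - κ u w ≤ F u 0 + (r - k) := by
    intro w hw hne
    rw [← (Eu w hw hne).2]
    have := (hG u).fr.upper (i := 0) (j := κ u w) (by have := (hG u).hi w hw; omega)
    push_cast at this; linarith
  have fin : ∀ w ∈ nb ν v, w ≠ u → F v 0 ≤ F w (κ v w) - κ v w := by
    intro w hw hne
    rw [← (Ev w hw hne).2]
    have := (hG v).fr.mono (i := 0) (j := κ v w) ((hG v).lo w hw)
    push_cast at this; linarith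
  have mid : ∀ w (i j : ℤ), i ≤ j → F w i - i ≤ F w j - j := by
    intro w i j hij
    have := (hG w).fr.mono hij
    linarith
  by_cases c1 : ∃ w ∈ A, κ v w ≤ κ u w
  · obtain ⟨w, hw, hle⟩ := c1
    have := (memA w).mp hw
    linarith [start w (Au w hw) this.2.1, fin w (Av w hw) this.2.2.2, mid w _ _ hle]
  push Not at c1
  have b1 : ∑ w ∈ A, (κ u w + 1) ≤ ∑ w ∈ A, κ v w := sum_le_sum fun w hw => c1 w hw
  rw [sum_add_distrib] at b1
  simp only [sum_const, nsmul_eq_mul, mul_one] at b1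
  have cA' : (A.card : ℤ) + 2 = k := by exact_mod_cast cA
  have b2 := (hG u).hi v' v'u
  have b3 := (hG v).lo u' u'v
  have b4 : κ v u' ≠ κ v u := fun e => n1 ((hG v).inj _ u'v _ hvu e)
  have e1 : κ u v' = k - 1 := by omega
  have e2 : κ v u' = 1 := by omega
  have st := start v' v'u n2
  have e3 := (Eu v' v'u n2).1
  have step2 : ∀ w ∈ nb ν v', F w (κ v' w) - κ v' w ≤ F u 0 + (r - k) := by
    intro w hw
    rw [← (Ev' w hw).2]
    have := (hG v').hi w hw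
    linarith [mid v' (κ v' w) (κ u v') (by omega)]
  by_cases c2 : 1 ≤ κ v' u'
  · linarith [step2 u' u'v', fin u' u'v n1, mid u' (κ v u') (κ v' u') (by omega)]
  have e4 : κ v' u' = 0 := by have := (hG v').lo u' u'v'; omega
  by_cases c3 : ∃ w ∈ A, κ v w ≤ κ v' w
  · obtain ⟨w, hw, hle⟩ := c3
    have := (memA w).mp hw
    linarith [step2 w (Av' w hw), fin w (Av w hw) this.2.2.2, mid w _ _ hle]
  push Not at c3
  exfalso
  have b5 : ∑ w ∈ A, (κ u w + κ v' w + 3) ≤ ∑ w ∈ A, 2 * κ v w := by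
    refine sum_le_sum fun w hw => ?_
    have m := (memA w).mp hw
    have := c1 w hw
    have := c3 w hw
    have : κ u w ≠ κ v' w := by
      rw [(Eu w (Au w hw) m.2.1).1, (Ev' w (Av' w hw)).1]
      intro e
      exact h3 ((hG w).inj _ (nb_symm hν (Au w hw)) _ (nb_symm hν (Av' w hw)) e)
    omega
  rw [sum_add_distrib, sum_add_distrib, ← mul_sum] at b5
  simp only [sum_const, nsmul_eq_mul] at b5
  omega

theorem M_near {k : ℕ} (hk : 4 ≤ k) (he : Even k) (hW : Fintype.card W = k + 2) {ν : W → W}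
    (hν : ∀ x, ν (ν x) = x) (hν' : ∀ x, ν x ≠ x) {u v : W} (huv : v ∈ nb ν u) {r : ℝ}
    (hr0 : (k : ℝ) ≤ r) (hr : r < k + 1 / 4) {C : W → W → ℝ}
    (hsym : ∀ x, ∀ y ∈ nb ν x, ¬(x = u ∧ y = v) → ¬(x = v ∧ y = u) → Near r 0 (C x y) (C y x))
    (hfar : ∀ x, ∀ y ∈ nb ν x, ∀ z ∈ nb ν x, y ≠ z → Far r (C x y) (C x z)) :
    Near r (r - k) (C u v) (C v u) := by
  have hk' : (4 : ℝ) ≤ k := by exact_mod_cast hk
  have hr1 : 1 ≤ r := by linarith
  have hrp : 0 < r := by linarith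
  have hvu := nb_symm hν huv
  obtain ⟨h1, h2⟩ := mem_nb.mp huv
  obtain ⟨h3, h4⟩ := mem_nb.mp hvu
  have n1 : ν u ≠ u := hν' u
  have n2 : ν v ≠ v := hν' v
  have n3 : ν u ≠ ν v := fun e => h2 (by rw [← hν v, ← hν u, e])
  have anchor : ∀ x, ∀ y ∈ nb ν x, ¬(x = u ∧ y = v) → ¬(x = v ∧ y = u) → ∀ f κ,
      Good k r (nb ν x) (C x) f κ → ∃ g μ, Good k r (nb ν y) (C y) g μ ∧ Al (r - k) f g := by
    intro x y hy a1 a2 f κ hG
    obtain ⟨g, μ, hg, -, e⟩ := exists_good hrp (nb ν y) (card_nb hW hν' y) (C y) (hfar y) x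
      (nb_symm hν hy) (κ y) (hG.lo y hy) (hG.hi y hy) (f (κ y))
      ((hsym x y hy a1 a2).symm.trans0 (hG.near y hy)) hr1
    exact ⟨g, μ, hg, hG.fr.aligned hg.fr (by omega) e.symm⟩
  obtain ⟨fu, κu, hGu, eu, -⟩ := exists_good hrp (nb ν u) (card_nb hW hν' u) (C u) (hfar u) v huv
    0 le_rfl (by omega) (C u v) (Near.refl _ _) hr1
  have v'u : ν v ∈ nb ν u := mem_nb.mpr ⟨n3.symm, h3.symm⟩
  obtain ⟨f1, κ1, hG1, a1⟩ := anchor u (ν v) v'u (fun h => n2 h.2) (fun h => h2 h.1.symm) _ _ hGu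
  have he0 : 0 ≤ r - k := by linarith
  have gen : ∀ x, x ≠ v → ∃ f κ, Good k r (nb ν x) (C x) f κ ∧ Al (r - k) f1 f ∧
      (x = u → κ v = 0) := by
    intro x hx
    by_cases c1 : x = u
    · subst c1; exact ⟨fu, κu, hGu, a1.symm, fun _ => eu⟩
    by_cases c2 : x = ν v
    · subst c2; exact ⟨f1, κ1, hG1, Al.refl he0 _, fun h => absurd h c1⟩
    obtain ⟨g, μ, hg, a⟩ := anchor (ν v) x (mem_nb.mpr ⟨by rw [hν]; exact hx, c2⟩)
      (fun h => h3 h.1.symm) (fun h => n2 h.1) _ _ hG1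
    exact ⟨g, μ, hg, a, fun h => absurd h c1⟩
  have gen2 : ∀ x, ∃ f κ, Good k r (nb ν x) (C x) f κ ∧
      Al (if x = v then 2 * (r - k) else r - k) f1 f ∧ (x = u → κ v = 0) := by
    intro x
    by_cases hx : x = v
    · obtain ⟨f, κ, hG, a, -⟩ := gen (ν u) h1.symm
      obtain ⟨g, μ, hg, a'⟩ := anchor (ν u) v (mem_nb.mpr ⟨by rw [hν]; exact h2, h1⟩)
        (fun h => n1 h.1) (fun h => h1 h.1.symm) _ _ hG
      subst hx
      refine ⟨g, μ, hg, ?_, fun h => absurd h h2⟩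
      rw [if_pos rfl]; exact (a.trans a').mono (by linarith)
    · simpa [hx] using gen x hx
  choose F κ hG hA hu using gen2
  have hu0 : κ u v = 0 := hu u rfl
  have hE : ∀ x, ∀ y ∈ nb ν x, ¬(x = u ∧ y = v) → ¬(x = v ∧ y = u) →
      κ x y = κ y x ∧ F x (κ x y) = F y (κ x y) := by
    intro x y hy b1 b2
    have hx := nb_symm hν hy
    have al : Al (3 * (r - k)) (F x) (F y) := by
      refine ((hA x).symm.trans (hA y)).mono ?_
      have := (mem_nb.mp hy).2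
      split_ifs with d1 d2
      · exact absurd (d2.trans d1.symm) this
      all_goals linarith
    have nn : Near r 0 (F x (κ x y)) (F y (κ y x)) :=
      (((hG x).near y hy).symm.trans0 (hsym x y hy b1 b2)).trans0 ((hG y).near x hx)
    obtain ⟨e, e'⟩ := near_match (hG y).fr al nn (by linarith) ((hG x).lo y hy) ((hG x).hi y hy)
      ((hG y).lo x hx) ((hG y).hi x hx)
    refine ⟨e, ?_⟩
    rw [← e, abs_nonpos_iff] at e'
    linarith
  have hv0 : κ v u = 0 := by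
    by_contra hne
    have ex : ∀ x, ∃ y ∈ nb ν x, κ x y = 0 := fun x =>
      (hG x).surj (card_nb hW hν' x) le_rfl (by omega)
    choose μ hμ hμ0 using ex
    have key : ∀ x, x ≠ u → μ x ≠ u ∧ μ (μ x) = x := by
      intro x hx
      have b2 : ¬(x = v ∧ μ x = u) := by
        rintro ⟨rfl, e⟩
        apply hne; rw [← e]; exact hμ0 _
      have e := (hE x (μ x) (hμ x) (fun h => hx h.1) b2).1
      rw [hμ0] at e
      have hx' := nb_symm hν (hμ x)
      refine ⟨fun h => ?_, (hG (μ x)).inj _ (hμ _) _ hx' (by rw [hμ0, ← e])⟩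
      apply b2
      refine ⟨?_, h⟩
      rw [h] at e hx'
      exact (hG u).inj _ hx' _ huv (by rw [← e, hu0])
    have s0 : ∑ _x ∈ univ.erase u, (1 : ZMod 2) = 0 := by
      refine sum_involution (fun x _ => μ x) (fun _ _ => by decide) (fun x _ _ => ?_)
        (fun x hx => ?_) (fun x hx => ?_)
      · exact (mem_nb.mp (hμ x)).2
      · exact mem_erase.mpr ⟨(key x (mem_erase.mp hx).1).1, mem_univ _⟩
      · exact (key x (mem_erase.mp hx).1).2
    rw [sum_const, card_erase_of_mem (mem_univ _), card_univ, hW] at s0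
    obtain ⟨m, rfl⟩ := he
    have e : m + m + 2 - 1 = 2 * m + 1 := by omega
    rw [e] at s0
    simp only [nsmul_eq_mul, mul_one] at s0
    push_cast at s0
    have h20 : (2 : ZMod 2) = 0 := by decide
    rw [h20] at s0
    simp at s0
  have g1 := M_half hk hW hν hν' huv hG hE hu0 hv0
  have g2 := M_half hk hW hν hν' hvu hG (fun x y hy b1 b2 => hE x y hy b2 b1) hv0 hu0
  have q1 := (hG u).near v huv
  have q2 := (hG v).near u hvu
  rw [hu0] at q1
  rw [hv0] at q2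
  exact (q1.trans0' (Near.of_abs (abs_le.mpr ⟨by linarith, by linarith⟩))).trans0 q2.symm

end Pool.Agent.P.MP_3f5ded_co
end

-- part Pool.Agent.P.MP_3f5ded_co.MData
section

set_option autoImplicit false

namespace Pool.Agent.P.MP_3f5ded_co

open Finset

lemma exists_M {k : ℕ} (hk : 4 ≤ k) (he : Even k) :
    ∃ (ν : Option (ZMod (k + 1)) → Option (ZMod (k + 1))) (u v : Option (ZMod (k + 1)))
      (cl : Option (ZMod (k + 1)) → Option (ZMod (k + 1)) → ℕ),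
      (∀ x, ν (ν x) = x) ∧ (∀ x, ν x ≠ x) ∧ v ∈ nb ν u ∧ (∀ x y, cl x y = cl y x) ∧
      (∀ x y, cl x y < k) ∧ (∀ x, ∀ y ∈ nb ν x, ∀ z ∈ nb ν x, cl x y = cl x z → y = z) ∧
      cl u v = 0 := by
  have two : ∀ a : ZMod (k + 1), a + a = 0 → a = 0 := by
    intro a h
    obtain ⟨m, rfl⟩ := he
    have h0 : ((m + m + 1 : ℕ) : ZMod (m + m + 1)) = 0 := ZMod.natCast_self _
    push_cast at h0
    linear_combination (m + 1 : ZMod (m + m + 1)) * h - a * h0
  have : Fact (1 < k + 1) := ⟨by omega⟩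
  let ν : Option (ZMod (k + 1)) → Option (ZMod (k + 1)) := fun x =>
    match x with
    | none => some 0
    | some a => if a = 0 then none else some (-a)
  let col : Option (ZMod (k + 1)) → Option (ZMod (k + 1)) → ZMod (k + 1) := fun x y =>
    match x, y with
    | none, none => 0
    | none, some b => b + b
    | some a, none => a + a
    | some a, some b => a + b
  have c0 : ∀ x, ∀ y ∈ nb ν x, col x y ≠ 0 := by
    intro x y hy
    obtain ⟨h1, h2⟩ := mem_nb.mp hy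
    rcases x with _ | a <;> rcases y with _ | b
    · exact absurd rfl h2
    · intro h; exact h1 (by simp [ν, two b h])
    · intro h; exact h1 (by simp [ν, two a h])
    · intro h
      have h' : a + b = 0 := h
      by_cases ha : a = 0
      · subst ha; exact h2 (by simpa using h')
      · exact h1 (by simp only [ν, if_neg ha]; congr 1; linear_combination h')
  have c1 : ∀ x, ∀ y ∈ nb ν x, ∀ z ∈ nb ν x, col x y = col x z → y = z := by
    intro x y hy z hz h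
    obtain ⟨h1, h2⟩ := mem_nb.mp hy
    obtain ⟨h3, h4⟩ := mem_nb.mp hz
    rcases x with _ | a <;> rcases y with _ | b <;> rcases z with _ | c
    · rfl
    · exact absurd rfl h2
    · exact absurd rfl h4
    · have h' : b + b = c + c := h
      have := two (b - c) (by linear_combination h')
      congr 1; linear_combination this
    · rfl
    · have h' : a + a = a + c := h
      exact absurd (by congr 1; linear_combination -h') h4
    · have h' : a + b = a + a := h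
      exact absurd (by congr 1; linear_combination h') h2
    · have h' : a + b = a + c := h
      congr 1; linear_combination h'
  refine ⟨ν, some 0, some 1, fun x y => (col x y).val - 1, ?_, ?_, ?_, ?_, ?_, ?_, ?_⟩
  · rintro (_ | a)
    · simp [ν]
    · by_cases ha : a = 0 <;> simp [ν, ha]
  · rintro (_ | a)
    · simp [ν]
    · by_cases ha : a = 0
      · simp [ν, ha]
      · simp only [ν, if_neg ha]
        intro h
        exact ha (two a (by have := Option.some.inj h; linear_combination -this))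
  · rw [mem_nb]; simp [ν]
  · rintro (_ | a) (_ | b) <;> simp [col, add_comm]
  · intro x y
    have := ZMod.val_lt (col x y)
    show (col x y).val - 1 < k
    omega
  · intro x y hy z hz h
    apply c1 x y hy z hz
    have a1 : (col x y).val ≠ 0 := fun e => c0 x y hy ((ZMod.val_eq_zero _).mp e)
    have a2 : (col x z).val ≠ 0 := fun e => c0 x z hz ((ZMod.val_eq_zero _).mp e)
    apply ZMod.val_injective
    have h' : (col x y).val - 1 = (col x z).val - 1 := h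
    omega
  · simp [col, ZMod.val_one]

lemma M_colour {W : Type} [Fintype W] [DecidableEq W] {k : ℕ} {ν : W → W} {u v : W}
    (huv : v ≠ u) {cl : W → W → ℕ} (hs : ∀ x y, cl x y = cl y x) (hlt : ∀ x y, cl x y < k)
    (hinj : ∀ x, ∀ y ∈ nb ν x, ∀ z ∈ nb ν x, cl x y = cl x z → y = z) (h0 : cl u v = 0)
    {r a b : ℝ} (hab : |a - b| ≤ r - k) :
    ∃ C : W → W → ℝ, C u v = a ∧ C v u = b ∧
      (∀ x y, ¬(x = u ∧ y = v) → ¬(x = v ∧ y = u) → C x y = C y x) ∧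
      ∀ x, ∀ y ∈ nb ν x, ∀ z ∈ nb ν x, y ≠ z → Far r (C x y) (C x z) := by
  set C : W → W → ℝ := fun x y => if x = u ∧ y = v then a else if x = v ∧ y = u then b else
    if cl x y = 0 then min a b else min a b + cl x y + (r - k) with hC
  rw [abs_le] at hab
  have l0 : ∀ x y, cl x y = 0 → min a b ≤ C x y ∧ C x y ≤ min a b + (r - k) := by
    intro x y h
    simp only [hC, h, if_true]
    rcases min_cases a b with e | e <;> rw [e.1] <;> split_ifs <;> constructor <;> linarith [e.2]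
  have l1 : ∀ x y, cl x y ≠ 0 → C x y = min a b + cl x y + (r - k) := by
    intro x y h
    simp only [hC]
    rw [if_neg, if_neg, if_neg h]
    · rintro ⟨rfl, rfl⟩; exact h (by rw [hs, h0])
    · rintro ⟨rfl, rfl⟩; exact h h0
  have key : ∀ x y z, cl x y < cl x z → Far r (C x y) (C x z) := by
    intro x y z h
    have a1 : (cl x y : ℝ) + 1 ≤ cl x z := by exact_mod_cast h
    have a2 : (cl x z : ℝ) + 1 ≤ k := by exact_mod_cast hlt x z
    have a3 : (0 : ℝ) ≤ cl x y := by positivity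
    rw [l1 x z (by omega)]
    by_cases hy : cl x y = 0
    · have := l0 x y hy
      apply Far.of_bounds <;> linarith
    · rw [l1 x y hy]
      apply Far.of_bounds <;> linarith
  refine ⟨C, by simp [hC], by simp [hC, huv], ?_, ?_⟩
  · intro x y h1 h2
    simp only [hC]
    have h3 : ¬(y = u ∧ x = v) := fun h => h2 ⟨h.2, h.1⟩
    have h4 : ¬(y = v ∧ x = u) := fun h => h1 ⟨h.2, h.1⟩
    rw [if_neg h1, if_neg h2, if_neg h3, if_neg h4, hs x y]
  · intro x y hy z hz hne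
    rcases lt_trichotomy (cl x y) (cl x z) with h | h | h
    · exact key x y z h
    · exact absurd (hinj x y hy z hz h) hne
    · exact (key x z y h).symm

end Pool.Agent.P.MP_3f5ded_co
end

-- part Pool.Agent.P.MP_3f5ded_co.Net
section

set_option autoImplicit false

namespace Pool.Agent.P.MP_3f5ded_co

open Finset Sum

/-- A `k`-regular multigraph given by ports, with a weight on each edge; the edges of weight
zero form a simple graph. -/
structure Net (k : ℕ) : Type 1 where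
  N : Type
  Po : Type
  finN : Fintype N
  finP : Fintype Po
  nd : Po → N
  σ : Po → Po
  w : Po → ℕ
  inv : ∀ p, σ (σ p) = p
  ne : ∀ p, σ p ≠ p
  wσ : ∀ p, w (σ p) = w p
  deg : ∀ v, {p | nd p = v}.ncard = k
  noloop : ∀ p, w p = 0 → nd (σ p) ≠ nd p
  nopar : ∀ p q, w p = 0 → w q = 0 → nd p = nd q → nd (σ p) = nd (σ q) → p = q

instance {k : ℕ} (H : Net k) : Fintype H.N := H.finN
instance {k : ℕ} (H : Net k) : Fintype H.Po := H.finP

/-- Total weight. -/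
def Net.total {k : ℕ} (H : Net k) : ℕ := ∑ p, H.w p

/-- Colourings in which an edge of weight `w` may drift by `w (r - k)`. -/
def Net.Feas {k : ℕ} (H : Net k) (r : ℝ) : Prop :=
  ∃ c : H.Po → ℝ, (∀ p q, p ≠ q → H.nd p = H.nd q → Far r (c p) (c q)) ∧
    ∀ p, Near r (H.w p * (r - k)) (c p) (c (H.σ p))

section ins
variable {k : ℕ} (H : Net k) (p0 : H.Po) {W : Type} [Fintype W] [DecidableEq W] {ν : W → W}

/-- Ports of the inserted gadget. -/
abbrev PM (ν : W → W) : Type := {q : W × W // q.2 ∈ nb ν q.1}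

/-- The other end of an edge of the gadget. -/
def sw (hν : ∀ x, ν (ν x) = x) (z : PM ν) : PM ν := ⟨(z.1.2, z.1.1), nb_symm hν z.2⟩

lemma sw_sw (hν : ∀ x, ν (ν x) = x) (z : PM ν) : sw hν (sw hν z) = z := rfl

lemma sw_ne (hν : ∀ x, ν (ν x) = x) (z : PM ν) : sw hν z ≠ z := by
  intro h
  have := congrArg (fun z : PM ν => z.1.1) h
  exact (mem_nb.mp z.2).2 this

open Classical in
/-- Pairing after insertion. -/
noncomputable def σI (hν : ∀ x, ν (ν x) = x) (a : PM ν) : H.Po ⊕ PM ν → H.Po ⊕ PM ν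
  | inl q => if q = p0 then inr a else if q = H.σ p0 then inr (sw hν a) else inl (H.σ q)
  | inr z => if z = a then inl p0 else if z = sw hν a then inl (H.σ p0) else inr (sw hν z)

open Classical in
/-- Weights after insertion. -/
noncomputable def wI (hν : ∀ x, ν (ν x) = x) (a : PM ν) : H.Po ⊕ PM ν → ℕ
  | inl q => if q = p0 then 0 else if q = H.σ p0 then H.w p0 - 1 else H.w q
  | inr z => if z = sw hν a then H.w p0 - 1 else 0

/-- Vertices of ports after insertion. -/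
def ndI : H.Po ⊕ PM ν → H.N ⊕ W
  | inl q => inl (H.nd q)
  | inr z => inr z.1.1

variable (hν : ∀ x, ν (ν x) = x) (a : PM ν)

lemma σ1 : σI H p0 hν a (inl p0) = inr a := by simp [σI]
lemma σ2 : σI H p0 hν a (inl (H.σ p0)) = inr (sw hν a) := by simp [σI, H.ne p0]
lemma σ3 {q : H.Po} (h1 : q ≠ p0) (h2 : q ≠ H.σ p0) : σI H p0 hν a (inl q) = inl (H.σ q) := by
  simp [σI, h1, h2]
lemma σ4 : σI H p0 hν a (inr a) = inl p0 := by simp [σI]
lemma σ5 : σI H p0 hν a (inr (sw hν a)) = inl (H.σ p0) := by simp [σI, sw_ne hν a]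
lemma σ6 {z : PM ν} (h1 : z ≠ a) (h2 : z ≠ sw hν a) : σI H p0 hν a (inr z) = inr (sw hν z) := by
  simp [σI, h1, h2]
lemma w1 : wI H p0 hν a (inl p0) = 0 := by simp [wI]
lemma w2 : wI H p0 hν a (inl (H.σ p0)) = H.w p0 - 1 := by simp [wI, H.ne p0]
lemma w3 {q : H.Po} (h1 : q ≠ p0) (h2 : q ≠ H.σ p0) : wI H p0 hν a (inl q) = H.w q := by
  simp [wI, h1, h2]
lemma w4 : wI H p0 hν a (inr a) = 0 := by simp [wI, (sw_ne hν a).symm]
lemma w5 : wI H p0 hν a (inr (sw hν a)) = H.w p0 - 1 := by simp [wI]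
lemma w6 {z : PM ν} (h2 : z ≠ sw hν a) : wI H p0 hν a (inr z) = 0 := by simp [wI, h2]

lemma casesI (p : H.Po ⊕ PM ν) : p = inl p0 ∨ p = inl (H.σ p0) ∨
    (∃ q, p = inl q ∧ q ≠ p0 ∧ q ≠ H.σ p0 ∧ H.σ q ≠ p0 ∧ H.σ q ≠ H.σ p0) ∨ p = inr a ∨
    p = inr (sw hν a) ∨
    (∃ z, p = inr z ∧ z ≠ a ∧ z ≠ sw hν a ∧ sw hν z ≠ a ∧ sw hν z ≠ sw hν a) := by
  rcases p with q | z
  · by_cases h1 : q = p0
    · simp [h1]
    by_cases h2 : q = H.σ p0
    · simp [h2]
    refine Or.inr (Or.inr (Or.inl ⟨q, rfl, h1, h2, fun h => h2 ?_, fun h => h1 ?_⟩))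
    · rw [← h, H.inv]
    · rw [← H.inv q, h, H.inv]
  · by_cases h1 : z = a
    · simp [h1]
    by_cases h2 : z = sw hν a
    · simp [h2]
    refine Or.inr (Or.inr (Or.inr (Or.inr (Or.inr
      ⟨z, rfl, h1, h2, fun h => h2 ?_, fun h => h1 ?_⟩))))
    · rw [← h, sw_sw]
    · rw [← sw_sw hν z, h, sw_sw]

/-- The network after inserting one gadget into the edge at `p0`. -/
noncomputable def insertNet (hν' : ∀ x, ν x ≠ x) (hW : Fintype.card W = k + 2) : Net k where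
  N := H.N ⊕ W
  Po := H.Po ⊕ PM ν
  finN := inferInstance
  finP := inferInstance
  nd := ndI H
  σ := σI H p0 hν a
  w := wI H p0 hν a
  inv := by
    intro p
    rcases casesI H p0 hν a p with rfl | rfl | ⟨q, rfl, h1, h2, h3, h4⟩ | rfl | rfl |
      ⟨z, rfl, h1, h2, h3, h4⟩
    · rw [σ1, σ4]
    · rw [σ2, σ5]
    · rw [σ3 _ _ _ _ h1 h2, σ3 _ _ _ _ h3 h4, H.inv]
    · rw [σ4, σ1]
    · rw [σ5, σ2]
    · rw [σ6 _ _ _ _ h1 h2, σ6 _ _ _ _ h3 h4, sw_sw]
  ne := by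
    intro p
    rcases casesI H p0 hν a p with rfl | rfl | ⟨q, rfl, h1, h2, h3, h4⟩ | rfl | rfl |
      ⟨z, rfl, h1, h2, h3, h4⟩
    · rw [σ1]; simp
    · rw [σ2]; simp
    · rw [σ3 _ _ _ _ h1 h2]; simpa using H.ne q
    · rw [σ4]; simp
    · rw [σ5]; simp
    · rw [σ6 _ _ _ _ h1 h2]; simpa using sw_ne hν z
  wσ := by
    intro p
    rcases casesI H p0 hν a p with rfl | rfl | ⟨q, rfl, h1, h2, h3, h4⟩ | rfl | rfl |
      ⟨z, rfl, h1, h2, h3, h4⟩
    · rw [σ1, w1, w4]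
    · rw [σ2, w2, w5]
    · rw [σ3 _ _ _ _ h1 h2, w3 _ _ _ _ h1 h2, w3 _ _ _ _ h3 h4, H.wσ]
    · rw [σ4, w1, w4]
    · rw [σ5, w2, w5]
    · rw [σ6 _ _ _ _ h1 h2, w6 _ _ _ _ h2, w6 _ _ _ _ h4]
  deg := by
    rintro (v | x)
    · have : {p : H.Po ⊕ PM ν | ndI H p = inl v} = inl '' {p | H.nd p = v} := by
        ext (q | z) <;> simp [ndI]
      rw [this, Set.ncard_image_of_injective _ inl_injective, H.deg]
    · refine Eq.trans ?_ (card_nb hW hν' x)
      rw [← Set.ncard_coe_finset]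
      symm
      refine Set.ncard_congr (fun y hy => inr ⟨(x, y), hy⟩) (fun y hy => rfl) ?_ ?_
      · intro y z _ _ h
        simpa using h
      · rintro (q | ⟨⟨x', y⟩, hz⟩) h
        · simp [ndI] at h
        · simp only [Set.mem_ofPred_eq, ndI, inr.injEq] at h
          subst h
          exact ⟨y, hz, rfl⟩
  noloop := by
    intro p hp
    rcases casesI H p0 hν a p with rfl | rfl | ⟨q, rfl, h1, h2, h3, h4⟩ | rfl | rfl |
      ⟨z, rfl, h1, h2, h3, h4⟩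
    · rw [σ1]; simp [ndI]
    · rw [σ2]; simp [ndI]
    · rw [σ3 _ _ _ _ h1 h2]
      rw [w3 _ _ _ _ h1 h2] at hp
      simpa [ndI] using H.noloop q hp
    · rw [σ4]; simp [ndI]
    · rw [σ5]; simp [ndI]
    · rw [σ6 _ _ _ _ h1 h2]; simpa [ndI, sw] using (mem_nb.mp z.2).2
  nopar := by
    intro p p' hp hp' e1 e2
    have hane : a.1.2 ≠ a.1.1 := (mem_nb.mp a.2).2
    rcases casesI H p0 hν a p with rfl | rfl | ⟨q, rfl, h1, h2, h3, h4⟩ | rfl | rfl |
      ⟨z, rfl, h1, h2, h3, h4⟩ <;>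
    rcases casesI H p0 hν a p' with rfl | rfl | ⟨q', rfl, h1', h2', h3', h4'⟩ | rfl | rfl |
      ⟨z', rfl, h1', h2', h3', h4'⟩ <;>
    (try rfl) <;> (try (exfalso; simp [ndI] at e1; done))
    · rw [σ1, σ2] at e2; exact absurd (by simpa [ndI, sw] using e2.symm) hane
    · rw [σ1, σ3 _ _ _ _ h1' h2'] at e2; simp [ndI] at e2
    · rw [σ1, σ2] at e2; exact absurd (by simpa [ndI, sw] using e2) hane
    · rw [σ2, σ3 _ _ _ _ h1' h2'] at e2; simp [ndI] at e2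
    · rw [σ1, σ3 _ _ _ _ h1 h2] at e2; simp [ndI] at e2
    · rw [σ2, σ3 _ _ _ _ h1 h2] at e2; simp [ndI] at e2
    · rw [σ3 _ _ _ _ h1 h2, σ3 _ _ _ _ h1' h2'] at e2
      rw [w3 _ _ _ _ h1 h2] at hp
      rw [w3 _ _ _ _ h1' h2'] at hp'
      rw [H.nopar q q' hp hp' (by simpa [ndI] using e1) (by simpa [ndI] using e2)]
    · exact absurd (by simpa [ndI, sw] using e1.symm) hane
    · rw [σ4, σ6 _ _ _ _ h1' h2'] at e2; simp [ndI] at e2
    · exact absurd (by simpa [ndI, sw] using e1) hane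
    · rw [σ5, σ6 _ _ _ _ h1' h2'] at e2; simp [ndI] at e2
    · rw [σ4, σ6 _ _ _ _ h1 h2] at e2; simp [ndI] at e2
    · rw [σ5, σ6 _ _ _ _ h1 h2] at e2; simp [ndI] at e2
    · rw [σ6 _ _ _ _ h1 h2, σ6 _ _ _ _ h1' h2'] at e2
      congr 1
      apply Subtype.ext
      apply Prod.ext
      · simpa [ndI] using e1
      · simpa [ndI, sw] using e2

lemma total_insert (hν' : ∀ x, ν x ≠ x) (hW : Fintype.card W = k + 2) (h0 : H.w p0 ≠ 0) :
    (insertNet H p0 hν a hν' hW).total < H.total := by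
  classical
  have e0 : (insertNet H p0 hν a hν' hW).total =
      ∑ q, wI H p0 hν a (inl q) + ∑ z, wI H p0 hν a (inr z) := Fintype.sum_sum_type _
  have e1 : ∑ z, wI H p0 hν a (inr z) = H.w p0 - 1 := by simp [wI]
  have e2 : ∀ q, H.w q = wI H p0 hν a (inl q) + (if q = p0 then H.w p0 else 0) +
      (if q = H.σ p0 then 1 else 0) := by
    intro q
    by_cases h1 : q = p0
    · subst h1; simp [w1, (H.ne q).symm]
    by_cases h2 : q = H.σ p0
    · subst h2; simp [w2, h1, H.wσ]; omega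
    simp [w3 _ _ _ _ h1 h2, h1, h2]
  have e3 : H.total = ∑ q, wI H p0 hν a (inl q) + H.w p0 + 1 := by
    unfold Net.total
    rw [sum_congr rfl (fun q _ => e2 q), sum_add_distrib, sum_add_distrib]
    simp
  omega

lemma feas_of_insert (hk : 4 ≤ k) (he : Even k) (hν' : ∀ x, ν x ≠ x)
    (hW : Fintype.card W = k + 2) (h0 : H.w p0 ≠ 0) {r : ℝ} (hr0 : (k : ℝ) ≤ r)
    (hr : r < k + 1 / 4) (h : (insertNet H p0 hν a hν' hW).Feas r) : H.Feas r := by
  classical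
  obtain ⟨c, hc1, hc2⟩ := h
  replace hc2 : ∀ p, Near r (wI H p0 hν a p * (r - k)) (c p) (c (σI H p0 hν a p)) := hc2
  set C : W → W → ℝ := fun x y => if h : y ∈ nb ν x then c (inr ⟨(x, y), h⟩) else 0 with hC
  have hCz : ∀ z : PM ν, C z.1.1 z.1.2 = c (inr z) := fun z => by simp only [hC, dif_pos z.2]
  have hM : Near r (r - k) (C a.1.1 a.1.2) (C a.1.2 a.1.1) := by
    refine M_near hk he hW hν hν' a.2 hr0 hr (fun x y hy b1 b2 => ?_) (fun x y hy z hz hne => ?_)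
    · have n1 : (⟨(x, y), hy⟩ : PM ν) ≠ a := fun e => b1 (by rw [← e]; exact ⟨rfl, rfl⟩)
      have n2 : (⟨(x, y), hy⟩ : PM ν) ≠ sw hν a := fun e => b2 (by
        rw [← sw_sw hν a, ← e]; exact ⟨rfl, rfl⟩)
      have := hc2 (inr ⟨(x, y), hy⟩)
      rw [σ6 _ _ _ _ n1 n2, w6 _ _ _ _ n2, ← hCz, ← hCz] at this
      simpa [sw] using this
    · have := hc1 (inr ⟨(x, y), hy⟩) (inr ⟨(x, z), hz⟩)
        (fun e => hne (congrArg (fun t : PM ν => t.1.2) (inr_injective e))) rfl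
      rwa [← hCz, ← hCz] at this
  have hM' : Near r (r - k) (c (inr a)) (c (inr (sw hν a))) := by
    rw [← hCz, ← hCz]; exact hM
  have main : Near r (H.w p0 * (r - k)) (c (inl p0)) (c (inl (H.σ p0))) := by
    have b1 := hc2 (inl p0)
    have b2 := hc2 (inr (sw hν a))
    rw [σ1, w1] at b1
    rw [σ5, w5] at b2
    refine ((b1.trans hM').trans b2).mono (le_of_eq ?_)
    rw [Nat.cast_sub (by omega)]; push_cast; ring
  refine ⟨fun q => c (inl q), fun p q hne e => hc1 _ _ (fun e' => hne (inl_injective e')) (congrArg inl e), ?_⟩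
  intro q
  by_cases h1 : q = p0
  · subst h1; exact main
  by_cases h2 : q = H.σ p0
  · subst h2; rw [H.inv, H.wσ]; exact main.symm
  have := hc2 (inl q)
  rwa [σ3 _ _ _ _ h1 h2, w3 _ _ _ _ h1 h2] at this

lemma insert_of_feas (hν' : ∀ x, ν x ≠ x) (hW : Fintype.card W = k + 2) (h0 : H.w p0 ≠ 0)
    {cl : W → W → ℕ} (hs : ∀ x y, cl x y = cl y x) (hlt : ∀ x y, cl x y < k)
    (hinj : ∀ x, ∀ y ∈ nb ν x, ∀ z ∈ nb ν x, cl x y = cl x z → y = z) (hcl : cl a.1.1 a.1.2 = 0)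
    {r : ℝ} (hr0 : (k : ℝ) ≤ r) (h : H.Feas r) : (insertNet H p0 hν a hν' hW).Feas r := by
  obtain ⟨c, hc1, hc2⟩ := h
  obtain ⟨n, hn⟩ := hc2 p0
  have hw : (1 : ℝ) ≤ H.w p0 := by exact_mod_cast Nat.one_le_iff_ne_zero.mpr h0
  set d := c p0 - c (H.σ p0) - n * r with hd
  have hb : |c p0 - (c p0 - d / H.w p0)| ≤ r - k := by
    rw [sub_sub_cancel, abs_div, abs_of_pos (by linarith : (0 : ℝ) < H.w p0), div_le_iff₀ (by linarith)]
    linarith
  obtain ⟨C, e1, e2, hsym, hfar⟩ := M_colour (mem_nb.mp a.2).2 hs hlt hinj hcl hb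
  have main : Near r ((H.w p0 - 1 : ℕ) * (r - k)) (C a.1.2 a.1.1) (c (H.σ p0)) := by
    refine ⟨n, ?_⟩
    have : C a.1.2 a.1.1 - c (H.σ p0) - n * r = (H.w p0 - 1) * (d / H.w p0) := by
      rw [e2]; field_simp; rw [hd]; ring
    rw [this, abs_mul, abs_of_nonneg (by linarith), Nat.cast_sub (by omega)]
    rw [sub_sub_cancel] at hb
    push_cast
    exact mul_le_mul_of_nonneg_left hb (by linarith)
  refine ⟨Sum.elim c (fun z => C z.1.1 z.1.2), ?_, ?_⟩
  · rintro (p | z) (q | z') hne e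
    · exact hc1 p q (fun e' => hne (congrArg inl e')) (inl_injective e)
    · exact absurd e inl_ne_inr
    · exact absurd e inr_ne_inl
    · obtain ⟨⟨x, y⟩, hy⟩ := z
      obtain ⟨⟨x', y'⟩, hy'⟩ := z'
      have : x = x' := inr_injective e
      subst this
      exact hfar x y hy y' hy' (by rintro rfl; exact hne rfl)
  · intro p
    show Near r (wI H p0 hν a p * (r - k)) _ (Sum.elim c _ (σI H p0 hν a p))
    rcases casesI H p0 hν a p with rfl | rfl | ⟨q, rfl, h1, h2, h3, h4⟩ | rfl | rfl |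
      ⟨z, rfl, h1, h2, h3, h4⟩
    · rw [σ1, w1]; simpa [e1] using Near.refl r _
    · rw [σ2, w2]; exact main.symm
    · rw [σ3 _ _ _ _ h1 h2, w3 _ _ _ _ h1 h2]; exact hc2 q
    · rw [σ4, w4]; simpa [e1] using Near.refl r _
    · rw [σ5, w5]; exact main
    · rw [σ6 _ _ _ _ h1 h2, w6 _ _ _ _ h2]
      have := hsym z.1.1 z.1.2 (fun h => h1 (Subtype.ext (Prod.ext h.1 h.2)))
        (fun h => h2 (Subtype.ext (Prod.ext h.1 h.2)))
      simpa [sw, this] using Near.refl r _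

end ins

theorem exists_rigid {k : ℕ} (hk : 4 ≤ k) (he : Even k) (H : Net k) :
    ∃ H' : Net k, (∀ p, H'.w p = 0) ∧ ∀ r : ℝ, k ≤ r → r < k + 1 / 4 → (H'.Feas r ↔ H.Feas r) := by
  induction hn : H.total using Nat.strong_induction_on generalizing H with
  | _ n ih =>
    by_cases h : ∀ p, H.w p = 0
    · exact ⟨H, h, fun _ _ _ => Iff.rfl⟩
    push Not at h
    obtain ⟨p0, h0⟩ := h
    obtain ⟨ν, u, v, cl, hν, hν', huv, hs, hlt, hinj, hcl⟩ := exists_M hk he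
    have hW : Fintype.card (Option (ZMod (k + 1))) = k + 2 := by simp
    obtain ⟨H', h1, h2⟩ := ih _ (hn ▸ total_insert H p0 hν ⟨(u, v), huv⟩ hν' hW h0) _ rfl
    exact ⟨H', h1, fun r a b => (h2 r a b).trans
      ⟨feas_of_insert H p0 hν _ hk he hν' hW h0 a b,
        insert_of_feas H p0 hν _ hν' hW h0 hs hlt hinj hcl a⟩⟩

end Pool.Agent.P.MP_3f5ded_co
end

-- part Pool.Agent.P.MP_3f5ded_co.Graph
section

set_option autoImplicit false

namespace Pool.Agent.P.MP_3f5ded_co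

open Finset

/-- Circular `r`-edge-colourability. -/
def Col {V : Type} (G : SimpleGraph V) (r : ℝ) : Prop :=
  ∃ c : G.edgeSet → ℝ, (∀ e, 0 ≤ c e ∧ c e < r) ∧
    ∀ e f : G.edgeSet, e ≠ f → (∃ v : V, v ∈ e.1 ∧ v ∈ f.1) →
      1 ≤ |c e - c f| ∧ |c e - c f| ≤ r - 1

lemma Col.mono {V : Type} {G : SimpleGraph V} {r r' : ℝ} (h : Col G r) (hr : r ≤ r') :
    Col G r' := by
  obtain ⟨c, h1, h2⟩ := h
  exact ⟨c, fun e => ⟨(h1 e).1, (h1 e).2.trans_le hr⟩, fun e f a b =>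
    ⟨(h2 e f a b).1, (h2 e f a b).2.trans (by linarith)⟩⟩

theorem exists_graph {k : ℕ} (H : Net k) (hw : ∀ p, H.w p = 0) :
    ∃ (n : ℕ) (G : SimpleGraph (Fin n)) (_ : DecidableRel G.Adj), G.IsRegularOfDegree k ∧
      ∀ r : ℝ, 0 < r → (Col G r ↔ H.Feas r) := by
  classical
  set e := Fintype.equivFin H.N
  let G : SimpleGraph (Fin (Fintype.card H.N)) :=
    { Adj := fun x y => ∃ p, e (H.nd p) = x ∧ e (H.nd (H.σ p)) = y
      symm := ⟨by
        rintro x y ⟨p, h1, h2⟩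
        exact ⟨H.σ p, h2, by rw [H.inv]; exact h1⟩⟩
      loopless := ⟨by
        rintro x ⟨p, h1, h2⟩
        exact H.noloop p (hw p) (e.injective (h2.trans h1.symm))⟩ }
  let ed : H.Po → G.edgeSet := fun p => ⟨s(e (H.nd p), e (H.nd (H.σ p))), ⟨p, rfl, rfl⟩⟩
  have ed1 : ∀ p, ed (H.σ p) = ed p := by
    intro p
    apply Subtype.ext
    simp only [ed, H.inv]
    exact Sym2.eq_swap
  have ed2 : ∀ p q, ed p = ed q → q = p ∨ q = H.σ p := by
    intro p q h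
    have := congrArg Subtype.val h
    simp only [ed, Sym2.eq_iff, EmbeddingLike.apply_eq_iff_eq] at this
    rcases this with ⟨h1, h2⟩ | ⟨h1, h2⟩
    · exact Or.inl (H.nopar _ _ (hw _) (hw _) h1 h2).symm
    · exact Or.inr (H.nopar _ _ (hw _) (hw _) h2.symm (by rw [H.inv]; exact h1.symm))
  have ed3 : ∀ f : G.edgeSet, ∃ p, ed p = f := by
    rintro ⟨f, hf⟩
    induction f using Sym2.ind with
    | _ x y =>
      have hf' : ∃ p, e (H.nd p) = x ∧ e (H.nd (H.σ p)) = y := hf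
      obtain ⟨p, h1, h2⟩ := hf'
      exact ⟨p, Subtype.ext (by simp only [ed, h1, h2])⟩
  have ed4 : ∀ (f : G.edgeSet) (v), v ∈ f.1 → ∃ p, ed p = f ∧ e (H.nd p) = v := by
    intro f v hv
    obtain ⟨p, rfl⟩ := ed3 f
    simp only [ed, Sym2.mem_iff] at hv
    rcases hv with rfl | rfl
    · exact ⟨p, rfl, rfl⟩
    · exact ⟨H.σ p, ed1 p, rfl⟩
  refine ⟨_, G, inferInstance, fun x => ?_, fun r hr => ⟨?_, ?_⟩⟩
  · have : G.neighborSet x = (fun p => e (H.nd (H.σ p))) '' {p | H.nd p = e.symm x} := by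
      ext y
      simp only [SimpleGraph.mem_neighborSet, G, Set.mem_image, Set.mem_ofPred_eq,
        Equiv.eq_symm_apply]
    refine Eq.trans ?_ (H.deg (e.symm x))
    rw [← SimpleGraph.card_neighborSet_eq_degree, ← Nat.card_eq_fintype_card,
      Nat.card_coe_set_eq, this]
    apply Set.InjOn.ncard_image
    intro p hp q hq h
    exact H.nopar _ _ (hw _) (hw _) (hp.trans hq.symm) (e.injective h)
  · rintro ⟨c, h1, h2⟩
    refine ⟨fun p => c (ed p), fun p q hne hpq => ?_, fun p => ?_⟩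
    · have : ed p ≠ ed q := by
        intro h
        rcases ed2 p q h with rfl | rfl
        · exact hne rfl
        · exact H.noloop p (hw p) hpq.symm
      obtain ⟨a, b⟩ := h2 _ _ this ⟨e (H.nd p), by simp [ed], by simp [ed, hpq]⟩
      rcases abs_cases (c (ed p) - c (ed q)) with h | h
      · exact (Far.of_bounds (by linarith) (by linarith)).symm
      · exact Far.of_bounds (by linarith) (by linarith)
    · simpa [hw, ed1] using Near.refl r _
  · rintro ⟨c, h1, h2⟩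
    choose π hπ using ed3
    have hn : ∀ p, Near r 0 (c p) (toIcoMod hr 0 (c (π (ed p)))) := by
      intro p
      have a : Near r 0 (c p) (c (π (ed p))) := by
        rcases ed2 p _ (hπ (ed p)).symm with h | h <;> rw [h]
        · exact Near.refl _ _
        · simpa [hw] using h2 p
      refine a.trans0 ⟨toIcoDiv hr 0 (c (π (ed p))), ?_⟩
      have := toIcoMod_add_toIcoDiv_zsmul hr 0 (c (π (ed p)))
      simp only [zsmul_eq_mul] at this
      rw [abs_nonpos_iff]; linarith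
    have hb : ∀ f, 0 ≤ toIcoMod hr 0 (c (π f)) ∧ toIcoMod hr 0 (c (π f)) < r := fun f =>
      ⟨(toIcoMod_mem_Ico hr 0 _).1, by simpa using (toIcoMod_mem_Ico hr 0 (c (π f))).2⟩
    refine ⟨fun f => toIcoMod hr 0 (c (π f)), hb, ?_⟩
    rintro f g hne ⟨v, hf, hg⟩
    obtain ⟨p, rfl, hp⟩ := ed4 f v hf
    obtain ⟨q, rfl, hq⟩ := ed4 g v hg
    have := (h1 p q (fun h => hne (by rw [h])) (e.injective (hp.trans hq.symm))).congr (hn p) (hn q)
    have a0 := this 0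
    have a1 := this 1
    have a2 := this (-1)
    have b1 := hb (ed p)
    have b2 := hb (ed q)
    push_cast at a0 a1 a2
    refine ⟨by simpa using a0, ?_⟩
    rw [abs_of_neg (by linarith)] at a1
    rw [abs_of_pos (by linarith)] at a2
    rw [abs_le]; constructor <;> linarith

end Pool.Agent.P.MP_3f5ded_co
end

-- part Pool.Agent.P.MP_3f5ded_co.Core
section

set_option autoImplicit false

namespace Pool.Agent.P.MP_3f5ded_co

/-- Relation between two ports at one vertex: classes `i, j` and offsets `o, p`. -/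
def R (e : ℝ) (i : ℤ) (o : ℝ) (j : ℤ) (p : ℝ) : Prop :=
  i ≠ j ∧ (i < j → o ≤ p) ∧ (j < i → p ≤ o) ∧ o ≤ p + e ∧ p ≤ o + e

/-- The three relations among three ports at one vertex. -/
def R3 (e : ℝ) (i : ℤ) (o : ℝ) (j : ℤ) (p : ℝ) (l : ℤ) (q : ℝ) : Prop :=
  R e i o j p ∧ R e i o l q ∧ R e j p l q

lemma core0 {e : ℝ} {ka kL kR ke2 ke3 kb kc kf1 kf2 kf3 kd kz1 kz2 kz3 kz4 : ℤ}
    {oa oL oR oe2 oe3 ob oc of1 of2 of3 od oz1 oz2 oz3 oz4 : ℝ}
    (hu1 : R3 e ka oa kL oL kz1 oz1)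
    (hu2 : R3 e kR oR ke2 oe2 kz2 oz2)
    (hu3 : R3 e ke2 oe2 ke3 oe3 kz3 oz3)
    (hu4 : R3 e ke3 oe3 kb ob kz4 oz4)
    (hw1 : R3 e kc oc kf1 of1 kz2 oz2)
    (hw2 : R3 e kf1 of1 kf2 of2 kz4 oz4)
    (hw3 : R3 e kf2 of2 kf3 of3 kz1 oz1)
    (hw4 : R3 e kf3 of3 kd od kz3 oz3)
    (s1 : (ka = kf2 ∧ kL = kf3) ∨ (ka = kf3 ∧ kL = kf2))
    (s2 : (kR = kc ∧ ke2 = kf1) ∨ (kR = kf1 ∧ ke2 = kc))
    (s3 : (ke2 = kf3 ∧ ke3 = kd) ∨ (ke2 = kd ∧ ke3 = kf3))
    (s4 : (ke3 = kf1 ∧ kb = kf2) ∨ (ke3 = kf2 ∧ kb = kf1))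
    (he : 0 ≤ e) (hm : kR = kL) (hRL : oR ≤ oL + e) (hLR : oL ≤ oR + e) :
    ka = kb ∧ kc = kd ∧ oa - ob ≤ 3 * e ∧
      ob - oa ≤ 3 * e ∧
      oc - od ≤ 2 * e ∧
      od - oc ≤ 2 * e ∧
      (oa - ob) + (oc - od) ≤ 4 * e ∧
      (oa - ob) + (od - oc) ≤ 4 * e ∧
      (ob - oa) + (oc - od) ≤ 4 * e ∧
      (ob - oa) + (od - oc) ≤ 4 * e := by
  rcases s1 with ⟨a1, b1⟩ | ⟨a1, b1⟩ <;> rcases s2 with ⟨a2, b2⟩ | ⟨a2, b2⟩ <;>
    rcases s3 with ⟨a3, b3⟩ | ⟨a3, b3⟩ <;> rcases s4 with ⟨a4, b4⟩ | ⟨a4, b4⟩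
  · exact absurd (by omega) hu2.1.1
  · exact absurd (by omega) hu2.1.1
  · exact absurd (by omega) hu2.1.1
  · exact absurd (by omega) hu1.1.1
  · exact absurd (by omega) hu2.1.1
  · exact absurd (by omega) hu2.1.1
  · refine ⟨by omega, by omega, ?_, ?_, ?_, ?_, ?_, ?_, ?_, ?_⟩
    · rcases lt_or_gt_of_ne hu1.2.1.1 with hc | hc
      · linarith only [hu4.2.2.2.2.2.2, hw2.2.2.2.2.2.1, hw3.2.1.2.2.2.2, hu1.2.1.2.1 (by omega), he]
      · linarith only [hu4.2.2.2.2.2.2, hw2.2.2.2.2.2.1, hw3.2.1.2.2.1 (by omega), hu1.2.1.2.2.2.1, he]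
    · rcases lt_or_gt_of_ne hu1.2.1.1 with hc | hc
      · linarith only [hu1.2.1.2.2.2.2, hw3.2.1.2.1 (by omega), hw2.2.2.2.2.2.2, hu4.2.2.2.2.2.1, he]
      · linarith only [hu1.2.1.2.2.1 (by omega), hw3.2.1.2.2.2.1, hw2.2.2.2.2.2.2, hu4.2.2.2.2.2.1, he]
    · rcases lt_or_gt_of_ne hu1.1.1 with hc | hc
      · rcases lt_or_gt_of_ne hu2.1.1 with hc | hc
        · linarith only [hw4.1.2.1 (by omega), hw3.1.2.1 (by omega), hw2.1.2.2.2.1, hw1.1.2.2.2.1, he]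
        · linarith only [hw4.1.2.2.2.1, hw3.1.2.1 (by omega), hw2.1.2.2.2.1, hw1.1.2.1 (by omega), he]
      · rcases lt_or_gt_of_ne hu2.1.1 with hc | hc
        · linarith only [hw4.1.2.1 (by omega), hw3.1.2.2.2.1, hw2.1.2.1 (by omega), hw1.1.2.2.2.1, he]
        · linarith only [hw4.1.2.2.2.1, hw3.1.2.2.2.1, hw2.1.2.1 (by omega), hw1.1.2.1 (by omega), he]
    · rcases lt_or_gt_of_ne hu1.1.1 with hc | hc
      · rcases lt_or_gt_of_ne hu2.1.1 with hc | hc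
        · linarith only [hw1.1.2.2.1 (by omega), hw2.1.2.2.1 (by omega), hw3.1.2.2.2.2, hw4.1.2.2.2.2, he]
        · linarith only [hw1.1.2.2.2.2, hw2.1.2.2.1 (by omega), hw3.1.2.2.2.2, hw4.1.2.2.1 (by omega), he]
      · rcases lt_or_gt_of_ne hu2.1.1 with hc | hc
        · linarith only [hw1.1.2.2.1 (by omega), hw2.1.2.2.2.2, hw3.1.2.2.1 (by omega), hw4.1.2.2.2.2, he]
        · linarith only [hw1.1.2.2.2.2, hw2.1.2.2.2.2, hw3.1.2.2.1 (by omega), hw4.1.2.2.1 (by omega), he]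
    · rcases lt_or_gt_of_ne hu1.1.1 with hc | hc
      · rcases lt_or_gt_of_ne hu1.2.1.1 with hc | hc
        · rcases lt_or_gt_of_ne hu2.1.1 with hc | hc
          · linarith only [hu4.2.2.2.2.2.2, hw2.2.1.2.2.2.1, hw1.1.2.2.2.1, hw4.1.2.1 (by omega), hw3.2.2.2.2.2.2, hu1.2.1.2.1 (by omega), he]
          · linarith only [hu4.2.2.2.2.2.2, hw2.2.1.2.2.2.1, hw1.1.2.1 (by omega), hw4.1.2.2.2.1, hw3.2.2.2.2.2.2, hu1.2.1.2.1 (by omega), he]
        · rcases lt_or_gt_of_ne hu2.1.1 with hc | hc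
          · linarith only [hu4.2.2.2.2.2.2, hw2.2.1.2.2.2.1, hw1.1.2.2.2.1, hw4.1.2.1 (by omega), hw3.2.2.2.2.1 (by omega), hu1.2.1.2.2.2.1, he]
          · linarith only [hu4.2.2.2.2.2.2, hw2.2.1.2.2.2.1, hw1.1.2.1 (by omega), hw4.1.2.2.2.1, hw3.2.2.2.2.1 (by omega), hu1.2.1.2.2.2.1, he]
      · rcases lt_or_gt_of_ne hu2.1.1 with hc | hc
        · rcases lt_or_gt_of_ne hu2.2.2.1 with hc | hc
          · linarith only [hu4.1.2.1 (by omega), hu3.1.2.2.2.1, hu2.2.2.2.2.2.2, hw1.2.1.2.1 (by omega), hw4.1.2.1 (by omega), hw3.2.2.2.2.2.2, hu1.2.1.2.2.2.1, he]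
          · linarith only [hu4.1.2.1 (by omega), hu3.1.2.2.2.1, hu2.2.2.2.2.1 (by omega), hw1.2.1.2.2.2.1, hw4.1.2.1 (by omega), hw3.2.2.2.2.2.2, hu1.2.1.2.2.2.1, he]
        · rcases lt_or_gt_of_ne hu2.2.2.1 with hc | hc
          · linarith only [hu4.1.2.1 (by omega), hu3.1.2.1 (by omega), hu2.2.2.2.2.2.2, hw1.2.1.2.1 (by omega), hw4.1.2.2.2.1, hw3.2.2.2.2.2.2, hu1.2.1.2.2.2.1, he]
          · linarith only [hu4.1.2.1 (by omega), hu3.1.2.1 (by omega), hu2.2.2.2.2.1 (by omega), hw1.2.1.2.2.2.1, hw4.1.2.2.2.1, hw3.2.2.2.2.2.2, hu1.2.1.2.2.2.1, he]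
    · rcases lt_or_gt_of_ne hu1.1.1 with hc | hc
      · rcases lt_or_gt_of_ne hu1.2.1.1 with hc | hc
        · rcases lt_or_gt_of_ne hu2.1.1 with hc | hc
          · linarith only [hu4.1.2.2.2.1, hu3.2.2.2.2.2.2, hw4.2.2.2.2.2.1, hw1.1.2.2.1 (by omega), hw2.1.2.2.1 (by omega), hw3.2.1.2.2.2.2, hu1.2.1.2.1 (by omega), he]
          · rcases lt_or_gt_of_ne hu3.2.1.1 with hc | hc
            · linarith only [hu4.1.2.2.2.1, hu3.2.2.2.2.2.2, hw4.2.2.2.1 (by omega), hw1.1.2.2.2.2, hw2.1.2.2.1 (by omega), hw3.2.1.2.2.2.2, hu1.2.1.2.1 (by omega), he]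
            · linarith only [hu4.1.2.2.2.1, hu3.2.2.2.2.1 (by omega), hw4.2.2.2.2.2.1, hw1.1.2.2.2.2, hw2.1.2.2.1 (by omega), hw3.2.1.2.2.2.2, hu1.2.1.2.1 (by omega), he]
        · rcases lt_or_gt_of_ne hu2.1.1 with hc | hc
          · linarith only [hu4.1.2.2.2.1, hu3.2.2.2.2.2.2, hw4.2.2.2.2.2.1, hw1.1.2.2.1 (by omega), hw2.1.2.2.1 (by omega), hw3.2.1.2.2.1 (by omega), hu1.2.1.2.2.2.1, he]
          · rcases lt_or_gt_of_ne hu3.2.1.1 with hc | hc
            · linarith only [hu4.1.2.2.2.1, hu3.2.2.2.2.2.2, hw4.2.2.2.1 (by omega), hw1.1.2.2.2.2, hw2.1.2.2.1 (by omega), hw3.2.1.2.2.1 (by omega), hu1.2.1.2.2.2.1, he]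
            · linarith only [hu4.1.2.2.2.1, hu3.2.2.2.2.1 (by omega), hw4.2.2.2.2.2.1, hw1.1.2.2.2.2, hw2.1.2.2.1 (by omega), hw3.2.1.2.2.1 (by omega), hu1.2.1.2.2.2.1, he]
      · rcases lt_or_gt_of_ne hu1.2.1.1 with hc | hc
        · rcases lt_or_gt_of_ne hu2.1.1 with hc | hc
          · linarith only [hu4.1.2.1 (by omega), hu3.2.2.2.2.2.2, hw4.2.2.2.2.2.1, hw1.1.2.2.1 (by omega), hw2.1.2.2.2.2, hw3.2.1.2.2.2.2, hu1.2.1.2.1 (by omega), he]
          · rcases lt_or_gt_of_ne hu3.2.1.1 with hc | hc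
            · linarith only [hu4.1.2.1 (by omega), hu3.2.2.2.2.2.2, hw4.2.2.2.1 (by omega), hw1.1.2.2.2.2, hw2.1.2.2.2.2, hw3.2.1.2.2.2.2, hu1.2.1.2.1 (by omega), he]
            · linarith only [hu4.1.2.1 (by omega), hu3.2.2.2.2.1 (by omega), hw4.2.1.2.2.2.1, hw3.2.2.2.2.2.2, hu1.2.1.2.1 (by omega), hw1.1.2.2.2.2, hw2.1.2.2.2.2, hw3.1.2.2.1 (by omega), hw4.1.2.2.1 (by omega), he]
        · rcases lt_or_gt_of_ne hu2.1.1 with hc | hc
          · linarith only [hu4.1.2.1 (by omega), hu3.2.2.2.2.2.2, hw4.2.2.2.2.2.1, hw1.1.2.2.1 (by omega), hw2.1.2.2.2.2, hw3.2.1.2.2.1 (by omega), hu1.2.1.2.2.2.1, he]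
          · rcases lt_or_gt_of_ne hu3.2.1.1 with hc | hc
            · linarith only [hu4.1.2.1 (by omega), hu3.2.2.2.2.2.2, hw4.2.2.2.1 (by omega), hw1.1.2.2.2.2, hw2.1.2.2.2.2, hw3.2.1.2.2.1 (by omega), hu1.2.1.2.2.2.1, he]
            · linarith only [hu4.1.2.1 (by omega), hu3.2.2.2.2.1 (by omega), hw4.2.2.2.2.2.1, hw1.1.2.2.2.2, hw2.1.2.2.2.2, hw3.2.1.2.2.1 (by omega), hu1.2.1.2.2.2.1, he]
    · rcases lt_or_gt_of_ne hu1.1.1 with hc | hc
      · rcases lt_or_gt_of_ne hu1.2.1.1 with hc | hc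
        · rcases lt_or_gt_of_ne hu2.1.1 with hc | hc
          · rcases lt_or_gt_of_ne hu3.2.1.1 with hc | hc
            · linarith only [hu1.2.1.2.2.2.2, hw3.2.1.2.1 (by omega), hw2.1.2.2.2.1, hw1.1.2.2.2.1, hw4.2.2.2.2.2.2, hu3.2.2.2.1 (by omega), hu4.1.2.2.1 (by omega), he]
            · linarith only [hu1.2.1.2.2.2.2, hw3.2.1.2.1 (by omega), hw2.1.2.2.2.1, hw1.1.2.2.2.1, hw4.2.2.2.2.1 (by omega), hu3.2.2.2.2.2.1, hu4.1.2.2.1 (by omega), he]
          · linarith only [hu1.2.1.2.2.2.2, hw3.2.1.2.1 (by omega), hw2.1.2.2.2.1, hw1.1.2.1 (by omega), hw4.2.2.2.2.2.2, hu3.2.2.2.2.2.1, hu4.1.2.2.1 (by omega), he]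
        · rcases lt_or_gt_of_ne hu2.1.1 with hc | hc
          · rcases lt_or_gt_of_ne hu3.2.1.1 with hc | hc
            · linarith only [hu1.2.1.2.2.1 (by omega), hw3.2.2.2.2.2.1, hw4.2.1.2.2.2.2, hu3.2.2.2.1 (by omega), hu4.1.2.2.1 (by omega), hw4.1.2.1 (by omega), hw3.1.2.1 (by omega), hw2.1.2.2.2.1, hw1.1.2.2.2.1, he]
            · linarith only [hu1.2.1.2.2.1 (by omega), hw3.2.1.2.2.2.1, hw2.1.2.2.2.1, hw1.1.2.2.2.1, hw4.2.2.2.2.1 (by omega), hu3.2.2.2.2.2.1, hu4.1.2.2.1 (by omega), he]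
          · linarith only [hu1.2.1.2.2.1 (by omega), hw3.2.1.2.2.2.1, hw2.1.2.2.2.1, hw1.1.2.1 (by omega), hw4.2.2.2.2.2.2, hu3.2.2.2.2.2.1, hu4.1.2.2.1 (by omega), he]
      · rcases lt_or_gt_of_ne hu1.2.1.1 with hc | hc
        · rcases lt_or_gt_of_ne hu2.1.1 with hc | hc
          · rcases lt_or_gt_of_ne hu3.2.1.1 with hc | hc
            · linarith only [hu1.2.1.2.2.2.2, hw3.2.1.2.1 (by omega), hw2.1.2.1 (by omega), hw1.1.2.2.2.1, hw4.2.2.2.2.2.2, hu3.2.2.2.1 (by omega), hu4.1.2.2.2.2, he]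
            · linarith only [hu1.2.1.2.2.2.2, hw3.2.1.2.1 (by omega), hw2.1.2.1 (by omega), hw1.1.2.2.2.1, hw4.2.2.2.2.1 (by omega), hu3.2.2.2.2.2.1, hu4.1.2.2.2.2, he]
          · linarith only [hu1.2.1.2.2.2.2, hw3.2.1.2.1 (by omega), hw2.1.2.1 (by omega), hw1.1.2.1 (by omega), hw4.2.2.2.2.2.2, hu3.2.2.2.2.2.1, hu4.1.2.2.2.2, he]
        · rcases lt_or_gt_of_ne hu2.1.1 with hc | hc
          · rcases lt_or_gt_of_ne hu3.2.1.1 with hc | hc
            · linarith only [hu1.2.1.2.2.1 (by omega), hw3.2.1.2.2.2.1, hw2.1.2.1 (by omega), hw1.1.2.2.2.1, hw4.2.2.2.2.2.2, hu3.2.2.2.1 (by omega), hu4.1.2.2.2.2, he]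
            · linarith only [hu1.2.1.2.2.1 (by omega), hw3.2.1.2.2.2.1, hw2.1.2.1 (by omega), hw1.1.2.2.2.1, hw4.2.2.2.2.1 (by omega), hu3.2.2.2.2.2.1, hu4.1.2.2.2.2, he]
          · linarith only [hu1.2.1.2.2.1 (by omega), hw3.2.1.2.2.2.1, hw2.1.2.1 (by omega), hw1.1.2.1 (by omega), hw4.2.2.2.2.2.2, hu3.2.2.2.2.2.1, hu4.1.2.2.2.2, he]
    · rcases lt_or_gt_of_ne hu1.1.1 with hc | hc
      · rcases lt_or_gt_of_ne hu2.1.1 with hc | hc
        · rcases lt_or_gt_of_ne hu2.2.2.1 with hc | hc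
          · linarith only [hu1.2.1.2.2.2.2, hw3.2.2.2.2.2.1, hw4.1.2.2.2.2, hw1.2.1.2.2.2.2, hu2.2.2.2.1 (by omega), hu3.1.2.2.1 (by omega), hu4.1.2.2.1 (by omega), he]
          · linarith only [hu1.2.1.2.2.2.2, hw3.2.2.2.2.2.1, hw4.1.2.2.2.2, hw1.2.1.2.2.1 (by omega), hu2.2.2.2.2.2.1, hu3.1.2.2.1 (by omega), hu4.1.2.2.1 (by omega), he]
        · rcases lt_or_gt_of_ne hu2.2.2.1 with hc | hc
          · linarith only [hu1.2.1.2.2.2.2, hw3.2.2.2.2.2.1, hw4.1.2.2.1 (by omega), hw1.2.1.2.2.2.2, hu2.2.2.2.1 (by omega), hu3.1.2.2.2.2, hu4.1.2.2.1 (by omega), he]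
          · linarith only [hu1.2.1.2.2.2.2, hw3.2.2.2.2.2.1, hw4.1.2.2.1 (by omega), hw1.2.1.2.2.1 (by omega), hu2.2.2.2.2.2.1, hu3.1.2.2.2.2, hu4.1.2.2.1 (by omega), he]
      · rcases lt_or_gt_of_ne hu1.2.1.1 with hc | hc
        · rcases lt_or_gt_of_ne hu2.1.1 with hc | hc
          · linarith only [hu1.2.1.2.2.2.2, hw3.2.2.2.1 (by omega), hw4.1.2.2.2.2, hw1.1.2.2.1 (by omega), hw2.2.1.2.2.2.2, hu4.2.2.2.2.2.1, he]
          · linarith only [hu1.2.1.2.2.2.2, hw3.2.2.2.1 (by omega), hw4.1.2.2.1 (by omega), hw1.1.2.2.2.2, hw2.2.1.2.2.2.2, hu4.2.2.2.2.2.1, he]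
        · rcases lt_or_gt_of_ne hu2.1.1 with hc | hc
          · linarith only [hu1.2.1.2.2.1 (by omega), hw3.2.2.2.2.2.1, hw4.1.2.2.2.2, hw1.1.2.2.1 (by omega), hw2.2.1.2.2.2.2, hu4.2.2.2.2.2.1, he]
          · linarith only [hu1.2.1.2.2.1 (by omega), hw3.2.2.2.2.2.1, hw4.1.2.2.1 (by omega), hw1.1.2.2.2.2, hw2.2.1.2.2.2.2, hu4.2.2.2.2.2.1, he]
  · exact absurd (by omega) hu1.1.1
  · exact absurd (by omega) hu3.1.1
  · refine ⟨by omega, by omega, ?_, ?_, ?_, ?_, ?_, ?_, ?_, ?_⟩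
    · rcases lt_or_gt_of_ne hu1.1.1 with hc | hc
      · linarith only [hu4.1.2.2.2.1, hu3.1.2.1 (by omega), hu2.1.2.2.2.1, hLR, hu1.1.2.1 (by omega), he]
      · linarith only [hu4.1.2.1 (by omega), hu3.1.2.2.2.1, hu2.1.2.1 (by omega), hLR, hu1.1.2.2.2.1, he]
    · rcases lt_or_gt_of_ne hu1.1.1 with hc | hc
      · linarith only [hu1.1.2.2.2.2, hRL, hu2.1.2.2.1 (by omega), hu3.1.2.2.2.2, hu4.1.2.2.1 (by omega), he]
      · linarith only [hu1.1.2.2.1 (by omega), hRL, hu2.1.2.2.2.2, hu3.1.2.2.1 (by omega), hu4.1.2.2.2.2, he]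
    · rcases lt_or_gt_of_ne hu1.1.1 with hc | hc
      · linarith only [hw4.1.2.1 (by omega), hw3.1.2.2.2.1, hw2.1.2.1 (by omega), hw1.1.2.2.2.1, he]
      · linarith only [hw4.1.2.2.2.1, hw3.1.2.1 (by omega), hw2.1.2.2.2.1, hw1.1.2.1 (by omega), he]
    · rcases lt_or_gt_of_ne hu1.1.1 with hc | hc
      · linarith only [hw1.1.2.2.1 (by omega), hw2.1.2.2.2.2, hw3.1.2.2.1 (by omega), hw4.1.2.2.2.2, he]
      · linarith only [hw1.1.2.2.2.2, hw2.1.2.2.1 (by omega), hw3.1.2.2.2.2, hw4.1.2.2.1 (by omega), he]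
    · rcases lt_or_gt_of_ne hu1.1.1 with hc | hc
      · rcases lt_or_gt_of_ne hu1.2.1.1 with hc | hc
        · linarith only [hu4.2.2.2.2.2.2, hw2.2.1.2.2.2.1, hw1.1.2.2.2.1, hw4.1.2.1 (by omega), hw3.2.2.2.2.2.2, hu1.2.1.2.1 (by omega), he]
        · linarith only [hu4.2.2.2.2.2.2, hw2.2.1.2.2.2.1, hw1.1.2.2.2.1, hw4.1.2.1 (by omega), hw3.2.2.2.2.1 (by omega), hu1.2.1.2.2.2.1, he]
      · rcases lt_or_gt_of_ne hu1.2.1.1 with hc | hc
        · linarith only [hu4.2.2.2.2.2.2, hw2.2.1.2.2.2.1, hw1.1.2.1 (by omega), hw4.1.2.2.2.1, hw3.2.2.2.2.2.2, hu1.2.1.2.1 (by omega), he]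
        · linarith only [hu4.2.2.2.2.2.2, hw2.2.1.2.2.2.1, hw1.1.2.1 (by omega), hw4.1.2.2.2.1, hw3.2.2.2.2.1 (by omega), hu1.2.1.2.2.2.1, he]
    · rcases lt_or_gt_of_ne hu1.1.1 with hc | hc
      · rcases lt_or_gt_of_ne hu1.2.1.1 with hc | hc
        · rcases lt_or_gt_of_ne hu3.2.2.1 with hc | hc
          · linarith only [hu4.1.2.2.2.1, hu3.2.2.2.2.2.2, hw4.2.2.2.1 (by omega), hw1.1.2.2.1 (by omega), hw2.1.2.2.2.2, hw3.2.1.2.2.2.2, hu1.2.1.2.1 (by omega), he]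
          · linarith only [hu4.1.2.2.2.1, hu3.2.2.2.2.1 (by omega), hw4.2.2.2.2.2.1, hw1.1.2.2.1 (by omega), hw2.1.2.2.2.2, hw3.2.1.2.2.2.2, hu1.2.1.2.1 (by omega), he]
        · rcases lt_or_gt_of_ne hu3.2.2.1 with hc | hc
          · linarith only [hu4.1.2.2.2.1, hu3.2.2.2.2.2.2, hw4.2.2.2.1 (by omega), hw1.1.2.2.1 (by omega), hw2.1.2.2.2.2, hw3.2.1.2.2.1 (by omega), hu1.2.1.2.2.2.1, he]
          · linarith only [hu4.1.2.2.2.1, hu3.2.2.2.2.1 (by omega), hw4.2.2.2.2.2.1, hw1.1.2.2.1 (by omega), hw2.1.2.2.2.2, hw3.2.1.2.2.1 (by omega), hu1.2.1.2.2.2.1, he]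
      · rcases lt_or_gt_of_ne hu3.2.2.1 with hc | hc
        · linarith only [hu4.1.2.1 (by omega), hu3.2.2.2.2.2.2, hw4.2.2.2.1 (by omega), hw1.1.2.2.2.2, hw2.1.2.2.1 (by omega), hw3.2.1.2.2.2.2, hu1.2.1.2.2.2.1, he]
        · linarith only [hu4.1.2.1 (by omega), hu3.2.2.2.2.1 (by omega), hw4.2.2.2.2.2.1, hw1.1.2.2.2.2, hw2.1.2.2.1 (by omega), hw3.2.1.2.2.2.2, hu1.2.1.2.2.2.1, he]
    · rcases lt_or_gt_of_ne hu1.1.1 with hc | hc
      · rcases lt_or_gt_of_ne hu3.2.2.1 with hc | hc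
        · linarith only [hu1.2.1.2.2.2.2, hw3.2.1.2.2.2.1, hw2.1.2.1 (by omega), hw1.1.2.2.2.1, hw4.2.2.2.2.2.2, hu3.2.2.2.1 (by omega), hu4.1.2.2.1 (by omega), he]
        · linarith only [hu1.2.1.2.2.2.2, hw3.2.1.2.2.2.1, hw2.1.2.1 (by omega), hw1.1.2.2.2.1, hw4.2.2.2.2.1 (by omega), hu3.2.2.2.2.2.1, hu4.1.2.2.1 (by omega), he]
      · rcases lt_or_gt_of_ne hu1.2.1.1 with hc | hc
        · rcases lt_or_gt_of_ne hu3.2.2.1 with hc | hc
          · linarith only [hu1.2.1.2.2.2.2, hw3.2.1.2.1 (by omega), hw2.1.2.2.2.1, hw1.1.2.1 (by omega), hw4.2.2.2.2.2.2, hu3.2.2.2.1 (by omega), hu4.1.2.2.2.2, he]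
          · linarith only [hu1.2.1.2.2.2.2, hw3.2.1.2.1 (by omega), hw2.1.2.2.2.1, hw1.1.2.1 (by omega), hw4.2.2.2.2.1 (by omega), hu3.2.2.2.2.2.1, hu4.1.2.2.2.2, he]
        · rcases lt_or_gt_of_ne hu3.2.2.1 with hc | hc
          · linarith only [hu1.2.1.2.2.1 (by omega), hw3.2.1.2.2.2.1, hw2.1.2.2.2.1, hw1.1.2.1 (by omega), hw4.2.2.2.2.2.2, hu3.2.2.2.1 (by omega), hu4.1.2.2.2.2, he]
          · linarith only [hu1.2.1.2.2.1 (by omega), hw3.2.1.2.2.2.1, hw2.1.2.2.2.1, hw1.1.2.1 (by omega), hw4.2.2.2.2.1 (by omega), hu3.2.2.2.2.2.1, hu4.1.2.2.2.2, he]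
    · rcases lt_or_gt_of_ne hu1.1.1 with hc | hc
      · rcases lt_or_gt_of_ne hu1.2.1.1 with hc | hc
        · linarith only [hu1.2.1.2.2.2.2, hw3.2.2.2.1 (by omega), hw4.1.2.2.2.2, hw1.1.2.2.1 (by omega), hw2.2.1.2.2.2.2, hu4.2.2.2.2.2.1, he]
        · linarith only [hu1.2.1.2.2.1 (by omega), hw3.2.2.2.2.2.1, hw4.1.2.2.2.2, hw1.1.2.2.1 (by omega), hw2.2.1.2.2.2.2, hu4.2.2.2.2.2.1, he]
      · rcases lt_or_gt_of_ne hu1.2.1.1 with hc | hc
        · linarith only [hu1.2.1.2.2.2.2, hw3.2.2.2.1 (by omega), hw4.1.2.2.1 (by omega), hw1.1.2.2.2.2, hw2.2.1.2.2.2.2, hu4.2.2.2.2.2.1, he]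
        · linarith only [hu1.2.1.2.2.1 (by omega), hw3.2.2.2.2.2.1, hw4.1.2.2.1 (by omega), hw1.1.2.2.2.2, hw2.2.1.2.2.2.2, hu4.2.2.2.2.2.1, he]
  · exact absurd (by omega) hu3.1.1
  · exact absurd (by omega) hu1.1.1
  · exact absurd (by omega) hu4.1.1
  · exact absurd (by omega) hu4.1.1
  · exact absurd (by omega) hu1.1.1
  · exact absurd (by omega) hu1.1.1

lemma core1 {e : ℝ} {ka kL kR ke2 ke3 kb kc kf1 kf2 kf3 kd kz1 kz2 kz3 kz4 : ℤ}
    {oa oL oR oe2 oe3 ob oc of1 of2 of3 od oz1 oz2 oz3 oz4 : ℝ}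
    (hu1 : R3 e ka oa kL oL kz1 oz1)
    (hu2 : R3 e kR oR ke2 oe2 kz2 oz2)
    (hu3 : R3 e ke2 oe2 ke3 oe3 kz3 oz3)
    (hu4 : R3 e ke3 oe3 kb ob kz4 oz4)
    (hw1 : R3 e kc oc kf1 of1 kz2 oz2)
    (hw2 : R3 e kf1 of1 kf2 of2 kz4 oz4)
    (hw3 : R3 e kf2 of2 kf3 of3 kz1 oz1)
    (hw4 : R3 e kf3 of3 kd od kz3 oz3)
    (s1 : (ka = kf2 ∧ kL = kf3) ∨ (ka = kf3 ∧ kL = kf2))
    (s2 : (kR = kc ∧ ke2 = kf1) ∨ (kR = kf1 ∧ ke2 = kc))
    (s3 : (ke2 = kf3 ∧ ke3 = kd) ∨ (ke2 = kd ∧ ke3 = kf3))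
    (s4 : (ke3 = kf1 ∧ kb = kf2) ∨ (ke3 = kf2 ∧ kb = kf1))
    (he : 0 ≤ e) (hm : kR = kL + 1) : oL - oR ≤ 3 * e := by
  rcases s1 with ⟨a1, b1⟩ | ⟨a1, b1⟩ <;> rcases s2 with ⟨a2, b2⟩ | ⟨a2, b2⟩ <;>
    rcases s3 with ⟨a3, b3⟩ | ⟨a3, b3⟩ <;> rcases s4 with ⟨a4, b4⟩ | ⟨a4, b4⟩
  · exact absurd (by omega) hu3.1.1
  · rcases lt_or_gt_of_ne hu1.2.2.1 with hc | hc
    · linarith only [hu2.1.2.2.1 (by omega), hu3.2.1.2.2.2.2, hw4.2.1.2.2.2.1, hw3.2.2.2.2.2.2, hu1.2.2.2.1 (by omega), he]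
    · linarith only [hu2.1.2.2.1 (by omega), hu3.2.1.2.2.2.2, hw4.2.1.2.2.2.1, hw3.2.2.2.2.1 (by omega), hu1.2.2.2.2.2.1, he]
  · exact absurd (by omega) hu3.1.1
  · exact absurd (by omega) hu1.1.1
  · rcases lt_or_gt_of_ne hu1.2.2.1 with hc | hc
    · linarith only [hu2.1.2.2.1 (by omega), hu3.2.1.2.2.2.2, hw4.2.1.2.2.2.1, hw3.2.2.2.2.2.2, hu1.2.2.2.1 (by omega), he]
    · linarith only [hu2.1.2.2.1 (by omega), hu3.2.1.2.2.2.2, hw4.2.1.2.2.2.1, hw3.2.2.2.2.1 (by omega), hu1.2.2.2.2.2.1, he]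
  · rcases lt_or_gt_of_ne hu1.2.2.1 with hc | hc
    · linarith only [hu2.1.2.2.1 (by omega), hu3.2.1.2.2.2.2, hw4.2.1.2.2.2.1, hw3.2.2.2.2.2.2, hu1.2.2.2.1 (by omega), he]
    · linarith only [hu2.1.2.2.1 (by omega), hu3.2.1.2.2.2.2, hw4.2.1.2.2.2.1, hw3.2.2.2.2.1 (by omega), hu1.2.2.2.2.2.1, he]
  · omega
  · exact absurd (by omega) hu1.1.1
  · exact absurd (by omega) hu3.1.1
  · rcases lt_or_gt_of_ne hu1.1.1 with hc | hc
    · rcases lt_or_gt_of_ne hu3.2.1.1 with hc | hc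
      · linarith only [hu2.1.2.2.1 (by omega), hu3.2.1.2.2.2.2, hw4.2.1.2.1 (by omega), hw3.2.2.2.2.2.2, hu1.2.2.2.2.2.1, he]
      · linarith only [hu2.1.2.2.1 (by omega), hu3.2.1.2.2.1 (by omega), hw4.2.1.2.2.2.1, hw3.2.2.2.2.2.2, hu1.2.2.2.2.2.1, he]
    · rcases lt_or_gt_of_ne hu1.2.2.1 with hc | hc
      · linarith only [hu2.2.1.2.2.2.2, hw1.2.2.2.2.2.1, hw2.1.2.2.1 (by omega), hw3.2.1.2.2.2.2, hu1.2.2.2.1 (by omega), he]
      · linarith only [hu2.2.1.2.2.2.2, hw1.2.2.2.2.2.1, hw2.1.2.2.1 (by omega), hw3.2.1.2.2.1 (by omega), hu1.2.2.2.2.2.1, he]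
  · exact absurd (by omega) hu3.1.1
  · exact absurd (by omega) hu1.1.1
  · rcases lt_or_gt_of_ne hu1.2.2.1 with hc | hc
    · linarith only [hu2.2.1.2.2.2.2, hw1.2.2.2.2.2.1, hw2.1.2.2.1 (by omega), hw3.2.1.2.2.2.2, hu1.2.2.2.1 (by omega), he]
    · linarith only [hu2.2.1.2.2.2.2, hw1.2.2.2.2.2.1, hw2.1.2.2.1 (by omega), hw3.2.1.2.2.1 (by omega), hu1.2.2.2.2.2.1, he]
  · rcases lt_or_gt_of_ne hu1.2.2.1 with hc | hc
    · linarith only [hu2.2.1.2.2.2.2, hw1.2.2.2.2.2.1, hw2.1.2.2.1 (by omega), hw3.2.1.2.2.2.2, hu1.2.2.2.1 (by omega), he]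
    · linarith only [hu2.2.1.2.2.2.2, hw1.2.2.2.2.2.1, hw2.1.2.2.1 (by omega), hw3.2.1.2.2.1 (by omega), hu1.2.2.2.2.2.1, he]
  · rcases lt_or_gt_of_ne hu1.2.2.1 with hc | hc
    · linarith only [hu2.2.1.2.2.2.2, hw1.2.2.2.2.2.1, hw2.1.2.2.1 (by omega), hw3.2.1.2.2.2.2, hu1.2.2.2.1 (by omega), he]
    · linarith only [hu2.2.1.2.2.2.2, hw1.2.2.2.2.2.1, hw2.1.2.2.1 (by omega), hw3.2.1.2.2.1 (by omega), hu1.2.2.2.2.2.1, he]
  · exact absurd (by omega) hu1.1.1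

lemma core2 {e : ℝ} {ka kL kR ke2 ke3 kb kc kf1 kf2 kf3 kd kz1 kz2 kz3 kz4 : ℤ}
    {oa oL oR oe2 oe3 ob oc of1 of2 of3 od oz1 oz2 oz3 oz4 : ℝ}
    (hu1 : R3 e ka oa kL oL kz1 oz1)
    (hu2 : R3 e kR oR ke2 oe2 kz2 oz2)
    (hu3 : R3 e ke2 oe2 ke3 oe3 kz3 oz3)
    (hu4 : R3 e ke3 oe3 kb ob kz4 oz4)
    (hw1 : R3 e kc oc kf1 of1 kz2 oz2)
    (hw2 : R3 e kf1 of1 kf2 of2 kz4 oz4)
    (hw3 : R3 e kf2 of2 kf3 of3 kz1 oz1)
    (hw4 : R3 e kf3 of3 kd od kz3 oz3)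
    (s1 : (ka = kf2 ∧ kL = kf3) ∨ (ka = kf3 ∧ kL = kf2))
    (s2 : (kR = kc ∧ ke2 = kf1) ∨ (kR = kf1 ∧ ke2 = kc))
    (s3 : (ke2 = kf3 ∧ ke3 = kd) ∨ (ke2 = kd ∧ ke3 = kf3))
    (s4 : (ke3 = kf1 ∧ kb = kf2) ∨ (ke3 = kf2 ∧ kb = kf1))
    (he : 0 ≤ e) (hm : kR = kL - 1) : oR - oL ≤ 3 * e := by
  rcases s1 with ⟨a1, b1⟩ | ⟨a1, b1⟩ <;> rcases s2 with ⟨a2, b2⟩ | ⟨a2, b2⟩ <;>
    rcases s3 with ⟨a3, b3⟩ | ⟨a3, b3⟩ <;> rcases s4 with ⟨a4, b4⟩ | ⟨a4, b4⟩
  · exact absurd (by omega) hu3.1.1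
  · rcases lt_or_gt_of_ne hu1.2.2.1 with hc | hc
    · linarith only [hu1.2.2.2.2.2.2, hw3.2.2.2.1 (by omega), hw4.2.1.2.2.2.2, hu3.2.1.2.2.2.1, hu2.1.2.1 (by omega), he]
    · linarith only [hu1.2.2.2.2.1 (by omega), hw3.2.2.2.2.2.1, hw4.2.1.2.2.2.2, hu3.2.1.2.2.2.1, hu2.1.2.1 (by omega), he]
  · exact absurd (by omega) hu3.1.1
  · exact absurd (by omega) hu1.1.1
  · rcases lt_or_gt_of_ne hu1.2.2.1 with hc | hc
    · linarith only [hu1.2.2.2.2.2.2, hw3.2.2.2.1 (by omega), hw4.2.1.2.2.2.2, hu3.2.1.2.2.2.1, hu2.1.2.1 (by omega), he]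
    · linarith only [hu1.2.2.2.2.1 (by omega), hw3.2.2.2.2.2.1, hw4.2.1.2.2.2.2, hu3.2.1.2.2.2.1, hu2.1.2.1 (by omega), he]
  · rcases lt_or_gt_of_ne hu1.2.2.1 with hc | hc
    · linarith only [hu1.2.2.2.2.2.2, hw3.2.2.2.1 (by omega), hw4.2.1.2.2.2.2, hu3.2.1.2.2.2.1, hu2.1.2.1 (by omega), he]
    · linarith only [hu1.2.2.2.2.1 (by omega), hw3.2.2.2.2.2.1, hw4.2.1.2.2.2.2, hu3.2.1.2.2.2.1, hu2.1.2.1 (by omega), he]
  · omega
  · exact absurd (by omega) hu1.1.1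
  · exact absurd (by omega) hu3.1.1
  · rcases lt_or_gt_of_ne hu1.1.1 with hc | hc
    · rcases lt_or_gt_of_ne hu1.2.2.1 with hc | hc
      · linarith only [hu1.2.2.2.2.2.2, hw3.2.1.2.1 (by omega), hw2.1.2.1 (by omega), hw1.2.2.2.2.2.2, hu2.2.1.2.2.2.1, he]
      · linarith only [hu1.2.2.2.2.1 (by omega), hw3.2.1.2.2.2.1, hw2.1.2.1 (by omega), hw1.2.2.2.2.2.2, hu2.2.1.2.2.2.1, he]
    · rcases lt_or_gt_of_ne hu3.2.1.1 with hc | hc
      · linarith only [hu1.2.2.2.2.2.2, hw3.2.2.2.2.2.1, hw4.2.1.2.2.2.2, hu3.2.1.2.1 (by omega), hu2.1.2.1 (by omega), he]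
      · linarith only [hu1.2.2.2.2.2.2, hw3.2.2.2.2.2.1, hw4.2.1.2.2.1 (by omega), hu3.2.1.2.2.2.1, hu2.1.2.1 (by omega), he]
  · exact absurd (by omega) hu3.1.1
  · exact absurd (by omega) hu1.1.1
  · rcases lt_or_gt_of_ne hu1.2.2.1 with hc | hc
    · linarith only [hu1.2.2.2.2.2.2, hw3.2.1.2.1 (by omega), hw2.1.2.1 (by omega), hw1.2.2.2.2.2.2, hu2.2.1.2.2.2.1, he]
    · linarith only [hu1.2.2.2.2.1 (by omega), hw3.2.1.2.2.2.1, hw2.1.2.1 (by omega), hw1.2.2.2.2.2.2, hu2.2.1.2.2.2.1, he]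
  · rcases lt_or_gt_of_ne hu1.2.2.1 with hc | hc
    · linarith only [hu1.2.2.2.2.2.2, hw3.2.1.2.1 (by omega), hw2.1.2.1 (by omega), hw1.2.2.2.2.2.2, hu2.2.1.2.2.2.1, he]
    · linarith only [hu1.2.2.2.2.1 (by omega), hw3.2.1.2.2.2.1, hw2.1.2.1 (by omega), hw1.2.2.2.2.2.2, hu2.2.1.2.2.2.1, he]
  · rcases lt_or_gt_of_ne hu1.2.2.1 with hc | hc
    · linarith only [hu1.2.2.2.2.2.2, hw3.2.1.2.1 (by omega), hw2.1.2.1 (by omega), hw1.2.2.2.2.2.2, hu2.2.1.2.2.2.1, he]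
    · linarith only [hu1.2.2.2.2.1 (by omega), hw3.2.1.2.2.2.1, hw2.1.2.1 (by omega), hw1.2.2.2.2.2.2, hu2.2.1.2.2.2.1, he]
  · exact absurd (by omega) hu1.1.1

theorem core {e : ℝ} {ka kL kR ke2 ke3 kb kc kf1 kf2 kf3 kd kz1 kz2 kz3 kz4 : ℤ}
    {oa oL oR oe2 oe3 ob oc of1 of2 of3 od oz1 oz2 oz3 oz4 : ℝ}
    (hu1 : R3 e ka oa kL oL kz1 oz1)
    (hu2 : R3 e kR oR ke2 oe2 kz2 oz2)
    (hu3 : R3 e ke2 oe2 ke3 oe3 kz3 oz3)
    (hu4 : R3 e ke3 oe3 kb ob kz4 oz4)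
    (hw1 : R3 e kc oc kf1 of1 kz2 oz2)
    (hw2 : R3 e kf1 of1 kf2 of2 kz4 oz4)
    (hw3 : R3 e kf2 of2 kf3 of3 kz1 oz1)
    (hw4 : R3 e kf3 of3 kd od kz3 oz3)
    (s1 : (ka = kf2 ∧ kL = kf3) ∨ (ka = kf3 ∧ kL = kf2))
    (s2 : (kR = kc ∧ ke2 = kf1) ∨ (kR = kf1 ∧ ke2 = kc))
    (s3 : (ke2 = kf3 ∧ ke3 = kd) ∨ (ke2 = kd ∧ ke3 = kf3))
    (s4 : (ke3 = kf1 ∧ kb = kf2) ∨ (ke3 = kf2 ∧ kb = kf1))
    (he : 0 ≤ e) (h4 : 4 * e < 1) (hk : |kL - kR| < 2) (hd : |(kL + oL) - (kR + oR)| ≤ e) :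
    ka = kb ∧ kc = kd ∧ |oa - ob| ≤ 3 * e ∧ |oc - od| ≤ 2 * e ∧ |oa - ob| + |oc - od| ≤ 4 * e := by
  rw [abs_lt] at hk
  rw [abs_le] at hd
  have hc : kR = kL ∨ kR = kL + 1 ∨ kR = kL - 1 := by omega
  rcases hc with hm | hm | hm
  · have hm' : (kR : ℝ) = kL := by exact_mod_cast hm
    obtain ⟨g1, g2, g3, g4, g5, g6, g7, g8, g9, g10⟩ :=
      core0 hu1 hu2 hu3 hu4 hw1 hw2 hw3 hw4 s1 s2 s3 s4 he hm (by linarith) (by linarith)
    refine ⟨g1, g2, abs_le.mpr ⟨by linarith, by linarith⟩, abs_le.mpr ⟨by linarith, by linarith⟩, ?_⟩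
    rcases abs_cases (oa - ob) with h | h <;> rcases abs_cases (oc - od) with h' | h' <;>
      linarith [h.1, h'.1]
  · have hm' : (kR : ℝ) = kL + 1 := by exact_mod_cast hm
    have := core1 hu1 hu2 hu3 hu4 hw1 hw2 hw3 hw4 s1 s2 s3 s4 he hm
    exfalso; linarith
  · have hm' : (kR : ℝ) = kL - 1 := by exact_mod_cast hm
    have := core2 hu1 hu2 hu3 hu4 hw1 hw2 hw3 hw4 s1 s2 s3 s4 he hm
    exfalso; linarith

end Pool.Agent.P.MP_3f5ded_co
end

-- part Pool.Agent.P.MP_3f5ded_co.Coupler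
section

set_option autoImplicit false

namespace Pool.Agent.P.MP_3f5ded_co

open Finset Sum

/-- Ports of a vertex of the network: two path ports and `s + 2` spoke ports. -/
abbrev Pt (s : ℕ) : Type := Bool ⊕ Fin (s + 2)

lemma card_Pt (s : ℕ) : (univ : Finset (Pt s)).card = s + 4 := by
  simp; omega

/-- All ports of one vertex are pairwise far. -/
def AllFar {s : ℕ} (r : ℝ) (c : Pt s → ℝ) : Prop := ∀ p q, p ≠ q → Far r (c p) (c q)

/-- Port `p` has class `i` and offset `o`. -/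
def At {s : ℕ} (f : ℤ → ℝ) (κ : Pt s → ℤ) (p : Pt s) (i : ℤ) (o : ℝ) : Prop :=
  κ p = i ∧ f i - i = o

/-- A fat spoke: one rigid strand, all others elastic. -/
def Sp {s : ℕ} (r : ℝ) (u w : Pt s → ℝ) : Prop :=
  Near r 0 (u (inr 0)) (w (inr 0)) ∧ ∀ j, Near r (r - (s + 4 : ℕ)) (u (inr j)) (w (inr j))

variable {s : ℕ} {r : ℝ}

lemma At.self (f : ℤ → ℝ) (κ : Pt s → ℤ) (p : Pt s) : At f κ p (κ p) (f (κ p) - κ p) := ⟨rfl, rfl⟩

lemma anchor (hr0 : ((s + 4 : ℕ) : ℝ) ≤ r) {c c' : Pt s → ℝ} {f : ℤ → ℝ} {κ : Pt s → ℤ}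
    (hG : Good (s + 4) r univ c f κ) (hc' : AllFar r c') {p p' : Pt s} (hn : Near r 0 (c p) (c' p'))
    {i : ℤ} {o : ℝ} (h : At f κ p i o) :
    ∃ g μ, Good (s + 4) r univ c' g μ ∧ At g μ p' i o ∧ Al (r - (s + 4 : ℕ)) f g := by
  have hs : (0 : ℝ) ≤ s := by positivity
  have hr1 : 1 ≤ r := by push_cast at hr0; linarith
  obtain ⟨rfl, rfl⟩ := h
  obtain ⟨g, μ, hg, e1, e2⟩ := exists_good (by linarith) univ (card_Pt s) c'
    (fun y _ z _ h => hc' y z h) p' (mem_univ _) (κ p) (hG.lo p (mem_univ _)) (hG.hi p (mem_univ _))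
    (f (κ p)) (hn.symm.trans0 (hG.near p (mem_univ _))) hr1
  exact ⟨g, μ, hg, ⟨e1, by rw [e2]⟩, hG.fr.aligned hg.fr (by omega) e2.symm⟩

lemma closeE {c c' : Pt s → ℝ} {f g : ℤ → ℝ} {κ μ : Pt s → ℤ}
    (hG : Good (s + 4) r univ c f κ) (hG' : Good (s + 4) r univ c' g μ) {δ : ℝ} (ha : Al δ f g)
    (hδ : δ < 1) {p p' : Pt s} (hn : Near r 0 (c p) (c' p')) {i : ℤ} {o : ℝ} (h : At f κ p i o) :
    At g μ p' i o ∧ Al (r - (s + 4 : ℕ)) f g := by
  obtain ⟨rfl, rfl⟩ := h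
  have nn : Near r 0 (f (κ p)) (g (μ p')) :=
    ((hG.near p (mem_univ _)).symm.trans0 hn).trans0 (hG'.near p' (mem_univ _))
  obtain ⟨e, e'⟩ := near_match hG'.fr ha nn (by linarith) (hG.lo p (mem_univ _))
    (hG.hi p (mem_univ _)) (hG'.lo p' (mem_univ _)) (hG'.hi p' (mem_univ _))
  rw [← e, abs_nonpos_iff, sub_eq_zero] at e'
  exact ⟨⟨e.symm, by rw [e']⟩, hG.fr.aligned hG'.fr (by omega) e'⟩

lemma spoke (hr : r < (s + 4 : ℕ) + 1 / 4) {c c' : Pt s → ℝ} {f g : ℤ → ℝ} {κ μ : Pt s → ℤ}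
    (hG : Good (s + 4) r univ c f κ) (hG' : Good (s + 4) r univ c' g μ)
    (ha : Al (r - (s + 4 : ℕ)) f g) (hs : Sp r c c') {i j i' j' : ℤ} {o p o' p' : ℝ}
    (h1 : At f κ (inl false) i o) (h2 : At f κ (inl true) j p)
    (h3 : At g μ (inl false) i' o') (h4 : At g μ (inl true) j' p') :
    (i = i' ∧ j = j') ∨ (i = j' ∧ j = i') := by
  obtain ⟨rfl, -⟩ := h1
  obtain ⟨rfl, -⟩ := h2
  obtain ⟨rfl, -⟩ := h3
  obtain ⟨rfl, -⟩ := h4
  have st : ∀ j, κ (inr j) = μ (inr j) := by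
    intro j
    have nn := ((hG.near (inr j) (mem_univ _)).symm.trans0' (hs.2 j)).trans0
      (hG'.near (inr j) (mem_univ _))
    exact (near_match hG'.fr ha nn (by linarith) (hG.lo _ (mem_univ _))
      (hG.hi _ (mem_univ _)) (hG'.lo _ (mem_univ _)) (hG'.hi _ (mem_univ _))).1
  have key : ∀ b, κ (inl b) = μ (inl false) ∨ κ (inl b) = μ (inl true) := by
    intro b
    obtain ⟨y, -, hy⟩ := hG'.surj (card_Pt s) (hG.lo (inl b) (mem_univ _)) (hG.hi _ (mem_univ _))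
    rcases y with (_ | _) | j
    · exact Or.inl hy.symm
    · exact Or.inr hy.symm
    · rw [← st] at hy
      exact absurd (hG.inj _ (mem_univ _) _ (mem_univ _) hy) (by simp)
  have ne : κ (inl false) ≠ κ (inl true) := fun e =>
    absurd (hG.inj _ (mem_univ _) _ (mem_univ _) e) (by simp)
  have := key false
  have := key true
  omega

lemma relR {c : Pt s → ℝ} {f : ℤ → ℝ} {κ : Pt s → ℤ} (hG : Good (s + 4) r univ c f κ)
    {p q : Pt s} (hpq : p ≠ q) {i j : ℤ} {o o' : ℝ} (h1 : At f κ p i o) (h2 : At f κ q j o') :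
    R (r - (s + 4 : ℕ)) i o j o' := by
  obtain ⟨rfl, rfl⟩ := h1
  obtain ⟨rfl, rfl⟩ := h2
  have a1 := hG.lo p (mem_univ _)
  have a2 := hG.hi p (mem_univ _)
  have a3 := hG.lo q (mem_univ _)
  have a4 := hG.hi q (mem_univ _)
  refine ⟨fun e => hpq (hG.inj _ (mem_univ _) _ (mem_univ _) e), fun h => ?_, fun h => ?_, ?_, ?_⟩
  · linarith [hG.fr.mono h.le]
  · linarith [hG.fr.mono h.le]
  · linarith [hG.fr.upper (i := κ q) (j := κ p) (by omega)]
  · linarith [hG.fr.upper (i := κ p) (j := κ q) (by omega)]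

lemma relR3 {c : Pt s → ℝ} {f : ℤ → ℝ} {κ : Pt s → ℤ} (hG : Good (s + 4) r univ c f κ)
    {i j l : ℤ} {o p q : ℝ} (h1 : At f κ (inl false) i o) (h2 : At f κ (inl true) j p)
    (h3 : At f κ (inr 0) l q) : R3 (r - (s + 4 : ℕ)) i o j p l q :=
  ⟨relR hG (by simp) h1 h2, relR hG (by simp) h1 h3, relR hG (by simp) h2 h3⟩

lemma At.near {c : Pt s → ℝ} {f : ℤ → ℝ} {κ : Pt s → ℤ} (hG : Good (s + 4) r univ c f κ)
    {p : Pt s} {i : ℤ} {o : ℝ} (h : At f κ p i o) : Near r 0 (c p) (i + o) := by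
  obtain ⟨rfl, rfl⟩ := h
  have := hG.near p (mem_univ _)
  simpa using this

theorem coupler (hr0 : ((s + 4 : ℕ) : ℝ) ≤ r) (hr : r < (s + 4 : ℕ) + 1 / 4)
    {u1 u2 u3 u4 w1 w2 w3 w4 : Pt s → ℝ}
    (hu1 : AllFar r u1) (hu2 : AllFar r u2) (hu3 : AllFar r u3) (hu4 : AllFar r u4)
    (hw1 : AllFar r w1) (hw2 : AllFar r w2) (hw3 : AllFar r w3) (hw4 : AllFar r w4)
    (z1 : Sp r u1 w3) (z2 : Sp r u2 w1) (z3 : Sp r u3 w4) (z4 : Sp r u4 w2)
    (e1 : Near r (r - (s + 4 : ℕ)) (u1 (inl true)) (u2 (inl false)))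
    (e2 : Near r 0 (u2 (inl true)) (u3 (inl false)))
    (e3 : Near r 0 (u3 (inl true)) (u4 (inl false)))
    (f1 : Near r 0 (w1 (inl true)) (w2 (inl false)))
    (f2 : Near r 0 (w2 (inl true)) (w3 (inl false)))
    (f3 : Near r 0 (w3 (inl true)) (w4 (inl false))) :
    ∃ x y : ℝ, x ≤ 3 * (r - (s + 4 : ℕ)) ∧ y ≤ 2 * (r - (s + 4 : ℕ)) ∧
      x + y ≤ 4 * (r - (s + 4 : ℕ)) ∧ Near r x (u1 (inl false)) (u4 (inl true)) ∧
      Near r y (w1 (inl false)) (w4 (inl true)) := by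
  have hs : (0 : ℝ) ≤ s := by positivity
  have hr1 : 1 ≤ r := by push_cast at hr0; linarith
  obtain ⟨F1, K1, G1, k1, -⟩ := exists_good (by linarith) univ (card_Pt s) u1
    (fun y _ z _ h => hu1 y z h) (inl true) (mem_univ _) 1 (by norm_num) (by omega) _
    (Near.refl _ _) hr1
  have aA := At.self F1 K1 (inl false)
  have aL := At.self F1 K1 (inl true)
  have aZ1 := At.self F1 K1 (inr 0)
  obtain ⟨F7, K7, G7, bZ1, l17⟩ := anchor hr0 G1 hw3 z1.1 aZ1
  have aF2 := At.self F7 K7 (inl false)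
  have aF3 := At.self F7 K7 (inl true)
  obtain ⟨F6, K6, G6, bF2, l76⟩ := anchor hr0 G7 hw2 f2.symm aF2
  have aZ4 := At.self F6 K6 (inr 0)
  have aF1 := At.self F6 K6 (inl false)
  obtain ⟨F4, K4, G4, bZ4, l64⟩ := anchor hr0 G6 hu4 z4.1.symm aZ4
  obtain ⟨F8, K8, G8, bF3, l78⟩ := anchor hr0 G7 hw4 f3 aF3
  have aZ3 := At.self F8 K8 (inr 0)
  obtain ⟨F3, K3, G3, bZ3, l83⟩ := anchor hr0 G8 hu3 z3.1.symm aZ3
  obtain ⟨F5, K5, G5, bF1, l65⟩ := anchor hr0 G6 hw1 f1.symm aF1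
  have aZ2 := At.self F5 K5 (inr 0)
  obtain ⟨F2, K2, G2, bZ2, l52⟩ := anchor hr0 G5 hu2 z2.1.symm aZ2
  have aE3 := At.self F3 K3 (inl true)
  obtain ⟨bE3, l34⟩ := closeE G3 G4 (((l83.symm.trans l78.symm).trans l76).trans l64)
    (by linarith) e3 aE3
  have aE2 := At.self F2 K2 (inl true)
  obtain ⟨bE2, -⟩ := closeE G2 G3 (((l52.symm.trans l65.symm).trans l64).trans l34.symm)
    (by linarith) e2 aE2
  have aR := At.self F2 K2 (inl false)
  have aB := At.self F4 K4 (inl true)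
  have aC := At.self F5 K5 (inl false)
  have aD := At.self F8 K8 (inl true)
  have nn : Near r (r - (s + 4 : ℕ)) (F1 (K1 (inl true))) (F2 (K2 (inl false))) :=
    ((G1.near _ (mem_univ _)).symm.trans0' e1).trans0 (G2.near _ (mem_univ _))
  obtain ⟨n, hn1, hn2⟩ := near_lift G2.fr (((l17.trans l76).trans l65).trans l52) nn (m := 2)
    (by norm_num) (by push_cast at hr ⊢; linarith)
  have hn0 : n = 0 := by
    have a3 := G2.lo (inl false) (mem_univ _)
    have a4 := G2.hi (inl false) (mem_univ _)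
    rw [k1, abs_lt] at hn1
    rcases lt_trichotomy n 0 with h | h | h
    · have : n * ((s + 4 : ℕ) : ℤ) ≤ -1 * ((s + 4 : ℕ) : ℤ) :=
        mul_le_mul_of_nonneg_right (by omega) (by omega)
      omega
    · exact h
    · have : 1 * ((s + 4 : ℕ) : ℤ) ≤ n * ((s + 4 : ℕ) : ℤ) :=
        mul_le_mul_of_nonneg_right (by omega) (by omega)
      omega
  subst hn0
  simp only [zero_mul, add_zero] at hn1 hn2
  obtain ⟨g1, g2, g3, g4, g5⟩ := core (relR3 G1 aA aL aZ1) (relR3 G2 aR aE2 bZ2)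
    (relR3 G3 bE2 aE3 bZ3) (relR3 G4 bE3 aB bZ4) (relR3 G5 aC bF1 aZ2) (relR3 G6 aF1 bF2 aZ4)
    (relR3 G7 aF2 aF3 bZ1) (relR3 G8 bF3 aD aZ3)
    (spoke hr G1 G7 l17 z1 aA aL aF2 aF3) (spoke hr G2 G5 l52.symm z2 aR aE2 aC bF1)
    (spoke hr G3 G8 l83.symm z3 bE2 aE3 bF3 aD) (spoke hr G4 G6 l64.symm z4 bE3 aB aF1 bF2)
    (by linarith) (by linarith) hn1 (by simpa using hn2)
  refine ⟨_, _, g3, g4, g5, ?_, ?_⟩
  · refine ((aA.near G1).trans0' (Near.of_abs (le_of_eq ?_))).trans0 (aB.near G4).symm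
    rw [← g1]; congr 1; ring
  · refine ((aC.near G5).trans0' (Near.of_abs (le_of_eq ?_))).trans0 (aD.near G8).symm
    rw [← g2]; congr 1; ring

end Pool.Agent.P.MP_3f5ded_co
end

-- part Pool.Agent.P.MP_3f5ded_co.Main
section

set_option autoImplicit false

namespace Pool.Agent.P.MP_3f5ded_co

open Finset Sum

/-- Partner along the fat spoke. -/
def spk : Fin 10 → Fin 10 := ![6, 4, 7, 5, 1, 3, 0, 2, 9, 8]
/-- Vertex at the other end of a path port. -/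
def mv (b : Bool) : Fin 10 → Fin 10 :=
  bif b then ![1, 2, 3, 7, 5, 6, 7, 3, 4, 9] else ![8, 0, 1, 2, 8, 4, 5, 6, 0, 9]
/-- Port at the other end of a path port. -/
def mb (b : Bool) : Fin 10 → Bool :=
  bif b then ![false, false, false, true, false, false, false, true, false, false]
  else ![false, true, true, true, true, true, true, true, false, true]
/-- Change of block along a path port. -/
def ms (b : Bool) : Fin 10 → ℤ :=
  bif b then ![0, 0, 0, -1, 0, 0, 0, 1, -1, 0] else ![0, 0, 0, 0, 1, 0, 0, 0, 0, 0]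

/-- Weights of path ports. -/
def wt {L : ℕ} (S : ℕ → ℕ) (W : ℕ) (i : ZMod (L + 1)) (b : Bool) : Fin 10 → ℕ :=
  bif b then ![1, 0, 0, if i = 0 then W else 0, 0, 0, 0, if i + 1 = 0 then W else 0, 0, W]
  else ![if i = 0 then W else S i.val - S (i.val - 1), 1, 0, 0, 0, 0, 0, 0,
    if i = 0 then W else S i.val - S (i.val - 1), W]

/-- Pairing of ports. -/
def sg {L s : ℕ} : (ZMod (L + 1) × Fin 10) × Pt s → (ZMod (L + 1) × Fin 10) × Pt s
  | ((i, v), inl b) => ((i + (ms b v : ℤ), mv b v), inl (mb b v))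
  | ((i, v), inr j) => ((i, spk v), inr j)

/-- Weights. -/
def wg {L s : ℕ} (S : ℕ → ℕ) (W : ℕ) : (ZMod (L + 1) × Fin 10) × Pt s → ℕ
  | ((i, v), inl b) => wt S W i b v
  | (_, inr j) => if j = 0 then 0 else 1

/-- The chain of couplers. -/
def chain (L s : ℕ) (S : ℕ → ℕ) (W : ℕ) (hW : W ≠ 0) : Net (s + 4) where
  N := ZMod (L + 1) × Fin 10
  Po := (ZMod (L + 1) × Fin 10) × Pt s
  finN := inferInstance
  finP := inferInstance
  nd := Prod.fst
  σ := sg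
  w := wg S W
  inv := by
    rintro ⟨⟨i, v⟩, b | j⟩
    · have h1 : ∀ b v, mv (mb b v) (mv b v) = v := by decide
      have h2 : ∀ b v, mb (mb b v) (mv b v) = b := by decide
      have h3 : ∀ b v, ms (mb b v) (mv b v) = -ms b v := by decide
      simp [sg, h1, h2, h3]
    · have h1 : ∀ v, spk (spk v) = v := by decide
      simp [sg, h1]
  ne := by
    rintro ⟨⟨i, v⟩, b | j⟩
    · have h1 : ∀ b v, mv b v = v → mb b v ≠ b := by decide
      simp only [sg, ne_eq, Prod.mk.injEq, inl.injEq, not_and]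
      exact fun h => h1 b v h.2
    · have h1 : ∀ v, spk v ≠ v := by decide
      simp [sg, h1]
  wσ := by
    rintro ⟨⟨i, v⟩, b | j⟩
    · fin_cases v <;> cases b <;> simp [sg, wg, wt, mv, mb, ms]
    · simp [sg, wg]
  deg := by
    intro v
    have : {p : (ZMod (L + 1) × Fin 10) × Pt s | p.1 = v} = (fun a => (v, a)) '' Set.univ := by
      ext ⟨x, a⟩; simp [eq_comm]
    rw [this, Set.ncard_image_of_injective _ (Prod.mk_right_injective v), Set.ncard_univ]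
    simp; omega
  noloop := by
    rintro ⟨⟨i, v⟩, b | j⟩ h
    · have h1 : ∀ b v, mv b v = v → v = 9 := by decide
      intro e
      have := h1 b v (congrArg Prod.snd e)
      subst this
      cases b <;> exact hW h
    · have h1 : ∀ v, spk v ≠ v := by decide
      exact fun e => h1 v (congrArg Prod.snd e)
  nopar := by
    rintro ⟨⟨i, v⟩, p⟩ ⟨⟨i', v'⟩, q⟩ hp hq e1 e2
    obtain ⟨rfl, rfl⟩ : i = i' ∧ v = v' := Prod.mk.inj e1
    have h1 : ∀ b b' v, mv b v = mv b' v → b = b' ∨ v = 9 := by decide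
    have h2 : ∀ b v, mv b v ≠ spk v := by decide
    have e3 := congrArg Prod.snd e2
    rcases p with b | j <;> rcases q with b' | j'
    · rcases h1 b b' v e3 with rfl | rfl
      · rfl
      · cases b <;> exact absurd hp hW
    · exact absurd e3 (h2 b v)
    · exact absurd e3.symm (h2 b' v)
    · have a1 : j = 0 := by by_contra h; simp [wg, h] at hp
      have a2 : j' = 0 := by by_contra h; simp [wg, h] at hq
      rw [a1, a2]

lemma val_pred {L : ℕ} {i : ZMod (L + 1)} (hi : i ≠ 0) :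
    ∃ t, t < L ∧ i.val = t + 1 ∧ (i - 1).val = t := by
  have h1 : i.val ≠ 0 := fun e => hi ((ZMod.val_eq_zero _).mp e)
  have h2 := ZMod.val_lt i
  refine ⟨i.val - 1, by omega, by omega, ?_⟩
  have : i - 1 = ((i.val - 1 : ℕ) : ZMod (L + 1)) := by
    rw [Nat.cast_sub (by omega)]; simp
  rw [this, ZMod.val_natCast_of_lt (by omega)]

theorem chain_lower {L s : ℕ} (hL : 1 ≤ L) {S : ℕ → ℕ} (hS : Monotone S) (hS0 : S 0 = 0) {W : ℕ}
    (hW : W ≠ 0) {r : ℝ} (hr0 : ((s + 4 : ℕ) : ℝ) ≤ r) (hr : r < (s + 4 : ℕ) + 1 / 4)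
    (h : (chain L s S W hW).Feas r) : (L : ℝ) ≤ (r - (s + 4 : ℕ)) * (S L + 4 * L + 1) := by
  obtain ⟨c, hc1, hc2⟩ := h
  replace hc2 : ∀ p, Near r (wg S W p * (r - (s + 4 : ℕ))) (c p) (c (sg p)) := hc2
  have af : ∀ i v, AllFar r (fun p => c ((i, v), p)) := fun i v p q hne =>
    hc1 _ _ (fun e => hne (congrArg Prod.snd e)) rfl
  have he : 0 ≤ r - (s + 4 : ℕ) := by linarith
  have sp : ∀ i v, Sp r (fun p => c ((i, v), p)) (fun p => c ((i, spk v), p)) := by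
    intro i v
    refine ⟨by simpa [wg, sg] using hc2 ((i, v), inr 0), fun j => (hc2 ((i, v), inr j)).mono ?_⟩
    simp only [wg]
    split_ifs <;> simp only [Nat.cast_zero, Nat.cast_one] <;> linarith
  have cp : ∀ i : ZMod (L + 1), ∃ x y : ℝ, x ≤ 3 * (r - (s + 4 : ℕ)) ∧ y ≤ 2 * (r - (s + 4 : ℕ)) ∧
      x + y ≤ 4 * (r - (s + 4 : ℕ)) ∧ Near r x (c ((i, 0), inl false)) (c ((i, 3), inl true)) ∧
      Near r y (c ((i, 4), inl false)) (c ((i, 7), inl true)) := by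
    intro i
    refine coupler hr0 hr (af i 0) (af i 1) (af i 2) (af i 3) (af i 4) (af i 5) (af i 6) (af i 7)
      (sp i 0) (sp i 1) (sp i 2) (sp i 3) ?_ ?_ ?_ ?_ ?_ ?_
    · simpa [wg, sg, wt, mv, mb, ms] using hc2 ((i, 0), inl true)
    · simpa [wg, sg, wt, mv, mb, ms] using hc2 ((i, 1), inl true)
    · simpa [wg, sg, wt, mv, mb, ms] using hc2 ((i, 2), inl true)
    · simpa [wg, sg, wt, mv, mb, ms] using hc2 ((i, 4), inl true)
    · simpa [wg, sg, wt, mv, mb, ms] using hc2 ((i, 5), inl true)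
    · simpa [wg, sg, wt, mv, mb, ms] using hc2 ((i, 6), inl true)
  choose x y hx hy hxy nx ny using cp
  have loop : ∀ t, t < L → 1 ≤ ((S (t + 1) : ℝ) - S t) * (r - (s + 4 : ℕ)) +
      x ((t + 1 : ℕ) : ZMod (L + 1)) + y (t : ZMod (L + 1)) := by
    intro t ht
    set i : ZMod (L + 1) := ((t + 1 : ℕ) : ZMod (L + 1)) with hi
    have hv : i.val = t + 1 := ZMod.val_natCast_of_lt (by omega)
    have hi0 : i ≠ 0 := fun e => by rw [e] at hv; simp at hv
    have hp : i + -1 = (t : ZMod (L + 1)) := by rw [hi]; push_cast; ring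
    have n1 : Near r (((S (t + 1) : ℝ) - S t) * (r - (s + 4 : ℕ))) (c ((i, 8), inl false))
        (c ((i, 0), inl false)) := by
      have := hc2 ((i, 8), inl false)
      rw [← Nat.cast_sub (hS (Nat.le_succ t))]
      simpa [wg, sg, wt, mv, mb, ms, hi0, hv] using this
    have n2 : Near r 0 (c ((i, 3), inl true)) (c (((t : ZMod (L + 1)), 7), inl true)) := by
      simpa [wg, sg, wt, mv, mb, ms, hi0, hp] using hc2 ((i, 3), inl true)
    have n3 : Near r 0 (c ((i, 8), inl true)) (c (((t : ZMod (L + 1)), 4), inl false)) := by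
      simpa [wg, sg, wt, mv, mb, ms, hi0, hp] using hc2 ((i, 8), inl true)
    exact (af i 8 (inl false) (inl true) (by simp)).le
      ((((n1.trans (nx i)).trans0 n2).trans (ny _).symm).trans0 n3.symm)
  have ind : ∀ t, t ≤ L → (t : ℝ) + y (t : ZMod (L + 1)) ≤
      (r - (s + 4 : ℕ)) * (S t + 4 * t + 2) := by
    intro t
    induction t with
    | zero => intro _; have := hy ((0 : ℕ) : ZMod (L + 1)); rw [hS0]; push_cast at this ⊢; linarith
    | succ t ih =>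
      intro ht
      have a1 := ih (by omega)
      have a2 := loop t (by omega)
      have a3 := hxy ((t + 1 : ℕ) : ZMod (L + 1))
      rw [Nat.cast_succ (R := ℝ)]
      linarith
  obtain ⟨t, rfl⟩ : ∃ t, L = t + 1 := ⟨L - 1, by omega⟩
  have a1 := ind t (by omega)
  have a2 := loop t (by omega)
  have a3 := hx ((t + 1 : ℕ) : ZMod (t + 1 + 1))
  rw [Nat.cast_succ (R := ℝ)]
  linarith

/-- Classes of path ports. -/
def cP (b : Bool) : Fin 10 → ℕ :=
  bif b then ![2, 0, 2, 0, 0, 2, 0, 2, 1, 1] else ![0, 2, 0, 2, 2, 0, 2, 0, 0, 0]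
/-- Class of the rigid strand. -/
def cZ : Fin 10 → ℕ := ![1, 1, 1, 3, 1, 3, 1, 1, 2, 2]
/-- Class of the first elastic strand. -/
def cY : Fin 10 → ℕ := ![3, 3, 3, 1, 3, 1, 3, 3, 3, 3]

/-- Classes of all ports. -/
def cls {s : ℕ} (v : Fin 10) : Pt s → ℕ
  | inl b => cP b v
  | inr j => if j.val = 0 then cZ v else if j.val = 1 then cY v else j.val + 2

lemma cls_lt {s : ℕ} (v : Fin 10) (p : Pt s) : cls v p < s + 4 := by
  have h1 : ∀ b v, cP b v < 4 := by decide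
  have h2 : ∀ v, cZ v < 4 ∧ cY v < 4 := by decide
  rcases p with b | j
  · have := h1 b v; simp only [cls]; omega
  · have := h2 v; have := j.2; simp only [cls]; split_ifs <;> omega

lemma cls_inj {s : ℕ} (v : Fin 10) (p q : Pt s) (h : cls v p = cls v q) : p = q := by
  have h1 : ∀ b v, cP b v < 4 ∧ cP b v ≠ cZ v ∧ cP b v ≠ cY v := by decide
  have h2 : ∀ v, cZ v < 4 ∧ cY v < 4 ∧ cZ v ≠ cY v := by decide
  have h3 : ∀ b b' v, cP b v = cP b' v → b = b' := by decide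
  have := h2 v
  rcases p with b | j <;> rcases q with b' | j' <;> simp only [cls] at h
  · rw [h3 b b' v h]
  · have := h1 b v; split_ifs at h <;> omega
  · have := h1 b' v; split_ifs at h <;> omega
  · congr 1; apply Fin.ext; split_ifs at h <;> omega

/-- Offsets, in units of the excess. -/
def off (τ : ℝ) (v : Fin 10) (n : ℕ) : ℝ :=
  if n = 0 then ![0, 1 + τ, 1 + τ, 2 + τ, 2, 2, 1, 1, 0, 0] v
  else if n = 1 then ![1, 2, 1 + τ, 2 + τ, 2, 2, 1, 1 + τ, 0, 0] v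
  else if n = 2 then ![1, 2, 2 + τ, 2 + τ, 3, 2, 2, 1 + τ, 0, 0] v
  else ![1, 2, 2 + τ, 3, 3, 3, 2, 1 + τ, 0, 0] v

lemma off_ge (τ : ℝ) (v : Fin 10) {n : ℕ} (h : 3 ≤ n) : off τ v n = off τ v 3 := by
  simp only [off]
  rw [if_neg (by omega), if_neg (by omega), if_neg (by omega)]
  simp

lemma off_mono {τ : ℝ} (h0 : 0 ≤ τ) (h1 : τ ≤ 1) (v : Fin 10) {n m : ℕ} (h : n < m) :
    off τ v n ≤ off τ v m ∧ off τ v m ≤ off τ v n + 1 := by
  have a : off τ v 0 ≤ off τ v 1 ∧ off τ v 1 ≤ off τ v 2 ∧ off τ v 2 ≤ off τ v 3 ∧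
      off τ v 3 ≤ off τ v 0 + 1 := by
    fin_cases v <;> simp [off] <;> (try refine ⟨?_, ?_⟩) <;> linarith
  obtain ⟨a1, a2, a3, a4⟩ := a
  rcases le_or_gt 3 n with hn | hn
  · rw [off_ge τ v hn, off_ge τ v (show 3 ≤ m by omega)]; constructor <;> linarith
  rcases le_or_gt 3 m with hm | hm
  · rw [off_ge τ v hm]; interval_cases n <;> constructor <;> linarith
  · interval_cases m <;> interval_cases n <;> constructor <;> linarith

lemma off_spk {τ : ℝ} (h0 : 0 ≤ τ) (h1 : τ ≤ 1) (v : Fin 10) (n : ℕ) :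
    |off τ v n - off τ (spk v) n| ≤ 1 := by
  rw [abs_le]
  rcases le_or_gt 3 n with hn | hn
  · rw [off_ge τ v hn, off_ge τ _ hn]
    fin_cases v <;> simp [off, spk] <;> (try refine ⟨?_, ?_⟩) <;> linarith
  · interval_cases n <;> fin_cases v <;> simp [off, spk] <;> (try refine ⟨?_, ?_⟩) <;> linarith

lemma off_spk0 (τ : ℝ) (v : Fin 10) : off τ (spk v) (cZ v) = off τ v (cZ v) := by
  fin_cases v <;> simp [off, spk, cZ]

/-- Base colours. -/
noncomputable def base {L : ℕ} (ε : ℝ) (τ : ℕ → ℝ) (i : ZMod (L + 1)) (v : Fin 10) : ℝ :=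
  if v.val < 8 then i.val * (2 - ε) - τ i.val * ε
  else (i - 1).val * (2 - ε) - τ (i - 1).val * ε + 1 + 3 * ε

theorem chain_upper {L s : ℕ} {S : ℕ → ℕ} (hS : Monotone S) {W : ℕ} (hW : W ≠ 0) {ε ρ : ℝ}
    (hε : 0 < ε) (hρ : (4 + ρ) * ε = 1) (h0 : ∀ t : ℕ, 0 ≤ t * ρ - S t)
    (h1 : ∀ t : ℕ, t * ρ - S t ≤ 1) (hbig : (s + 4 : ℕ) + ε ≤ W * ε) :
    (chain L s S W hW).Feas ((s + 4 : ℕ) + ε) := by
  set τ : ℕ → ℝ := fun t => t * ρ - S t with hτ
  have hr : (0 : ℝ) < (s + 4 : ℕ) + ε := by positivity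
  refine ⟨fun p => base ε τ p.1.1 p.1.2 + cls p.1.2 p.2 + ε * off (τ p.1.1.val) p.1.2 (cls p.1.2 p.2),
    ?_, ?_⟩
  · rintro ⟨⟨i, v⟩, p⟩ ⟨⟨i', v'⟩, q⟩ hne e
    obtain ⟨rfl, rfl⟩ : i = i' ∧ v = v' := Prod.mk.inj e
    have key : ∀ p q : Pt s, cls v p < cls v q → Far ((s + 4 : ℕ) + ε)
        (base ε τ i v + cls v p + ε * off (τ i.val) v (cls v p))
        (base ε τ i v + cls v q + ε * off (τ i.val) v (cls v q)) := by
      intro p q h
      obtain ⟨a1, a2⟩ := off_mono (h0 i.val) (h1 i.val) v h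
      have b1 := mul_le_mul_of_nonneg_left a1 hε.le
      have b2 := mul_le_mul_of_nonneg_left a2 hε.le
      have b3 : (cls v p : ℝ) + 1 ≤ cls v q := by exact_mod_cast h
      have b4 : (cls v q : ℝ) + 1 ≤ (s + 4 : ℕ) := by exact_mod_cast cls_lt v q
      have b5 : (0 : ℝ) ≤ cls v p := by positivity
      apply Far.of_bounds <;> linarith
    rcases lt_trichotomy (cls v p) (cls v q) with h | h | h
    · exact key p q h
    · exact absurd (by rw [cls_inj v p q h]) hne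
    · exact (key q p h).symm
  · intro p
    rw [add_sub_cancel_left]
    show Near _ (wg S W p * ε) _ (base ε τ (sg p).1.1 (sg p).1.2 + cls (sg p).1.2 (sg p).2 +
      ε * off (τ (sg p).1.1.val) (sg p).1.2 (cls (sg p).1.2 (sg p).2))
    obtain ⟨⟨i, v⟩, b | j⟩ := p
    · have big : ∀ x y, Near ((s + 4 : ℕ) + ε) (W * ε) x y := Near.always hr hbig
      have c1 : Near ((s + 4 : ℕ) + ε) (wt S W i false 0 * ε) (base ε τ i 0) (base ε τ i 8) := by
        by_cases hi : i = 0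
        · simpa [wt, hi] using big _ _
        obtain ⟨t, -, e1, e2⟩ := val_pred hi
        apply Near.of_abs
        simp only [wt, base, hτ]
        simp only [hi, e1, e2, cond_false, Matrix.cons_val_zero, if_false, Nat.add_sub_cancel,
          Nat.cast_sub (hS (Nat.le_succ t))]
        rw [if_pos (by decide), if_neg (by decide)]
        have : (S t : ℝ) ≤ S (t + 1) := by exact_mod_cast hS (Nat.le_succ t)
        rw [abs_le]; push_cast
        constructor <;> nlinarith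
      have c2 : ∀ i : ZMod (L + 1), Near ((s + 4 : ℕ) + ε) (wt S W i true 3 * ε)
          (base ε τ i 3 + ε * (2 + τ i.val)) (base ε τ (i - 1) 7 + 2 + ε * (1 + τ (i - 1).val)) := by
        intro i
        by_cases hi : i = 0
        · simpa [wt, hi] using big _ _
        obtain ⟨t, -, e1, e2⟩ := val_pred hi
        apply Near.of_abs
        simp only [base]
        rw [if_pos (by decide), if_pos (by decide), e1, e2]
        simp [wt, hi]; ring
      fin_cases v <;> cases b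
      · simpa [wg, sg, mv, mb, ms, cls, cP, off] using c1
      · apply Near.of_abs
        simp [wg, wt, sg, mv, mb, ms, cls, cP, off, base]
        rw [abs_le]; constructor <;> linarith
      · apply Near.of_abs
        simp [wg, wt, sg, mv, mb, ms, cls, cP, off, base]
        rw [abs_le]; constructor <;> linarith
      · simpa [wg, wt, sg, mv, mb, ms, cls, cP, off, base] using Near.refl _ _
      · simpa [wg, wt, sg, mv, mb, ms, cls, cP, off, base] using Near.refl _ _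
      · simpa [wg, wt, sg, mv, mb, ms, cls, cP, off, base] using Near.refl _ _
      · simpa [wg, wt, sg, mv, mb, ms, cls, cP, off, base] using Near.refl _ _
      · simpa [wg, sg, mv, mb, ms, cls, cP, off, sub_eq_add_neg] using c2 i
      · apply Near.of_abs
        simp [wg, wt, sg, mv, mb, ms, cls, cP, off, base]
        ring
      · simpa [wg, wt, sg, mv, mb, ms, cls, cP, off, base] using Near.refl _ _
      · simpa [wg, wt, sg, mv, mb, ms, cls, cP, off, base] using Near.refl _ _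
      · simpa [wg, wt, sg, mv, mb, ms, cls, cP, off, base] using Near.refl _ _
      · simpa [wg, wt, sg, mv, mb, ms, cls, cP, off, base] using Near.refl _ _
      · simpa [wg, wt, sg, mv, mb, ms, cls, cP, off, base] using Near.refl _ _
      · simpa [wg, wt, sg, mv, mb, ms, cls, cP, off, base] using Near.refl _ _
      · simpa [wg, wt, sg, mv, mb, ms, cls, cP, off] using (c2 (i + 1)).symm
      · simpa [wg, wt, sg, mv, mb, ms, cls, cP, off] using c1.symm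
      · apply Near.of_abs
        simp [wg, wt, sg, mv, mb, ms, cls, cP, off, base, sub_eq_add_neg]
        ring
      · simpa [wg, wt] using big _ _
      · simpa [wg, wt] using big _ _
    · have e1 : base ε τ i (spk v) = base ε τ i v := by fin_cases v <;> simp [base, spk]
      have e2 : cls (spk v) (inr j : Pt s) = cls v (inr j) := by
        have h2 : ∀ v, cZ (spk v) = cZ v ∧ cY (spk v) = cY v := by decide
        simp only [cls, (h2 v).1, (h2 v).2]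
      apply Near.of_abs
      simp only [sg, e1, e2, add_sub_add_left_eq_sub, ← mul_sub, abs_mul, abs_of_pos hε, wg]
      split_ifs with hj
      · subst hj
        simp [cls, off_spk0]
      · have := mul_le_mul_of_nonneg_left
          (off_spk (τ := τ i.val) (h0 i.val) (h1 i.val) v (cls v (inr j : Pt s))) hε.le
        rw [Nat.cast_one, one_mul]
        rwa [mul_one] at this

theorem main (k : ℕ) (hk : 4 ≤ k) (he : Even k) (x : ℚ) (h1 : (k : ℚ) < x) (h2 : x < k + 1 / 4) :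
    ∃ (n : ℕ) (G : SimpleGraph (Fin n)) (_ : DecidableRel G.Adj), G.IsRegularOfDegree k ∧
      IsLeast {r : ℝ | 1 ≤ r ∧ Col G r} (x : ℝ) := by
  obtain ⟨s, rfl⟩ : ∃ s, k = s + 4 := ⟨k - 4, by omega⟩
  set ε : ℝ := x - (s + 4 : ℕ) with hεd
  have h1' : ((s + 4 : ℕ) : ℝ) < x := by exact_mod_cast h1
  have h2' : (x : ℝ) < (s + 4 : ℕ) + 1 / 4 := by
    have : ((x : ℚ) : ℝ) < (((s + 4 : ℕ) + 1 / 4 : ℚ) : ℝ) := by exact_mod_cast h2
    push_cast at this ⊢; linarith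
  have hε : 0 < ε := by linarith
  set ρ : ℝ := 1 / ε - 4 with hρd
  have hρ : (4 + ρ) * ε = 1 := by rw [hρd]; field_simp; ring
  have hρ0 : 0 < ρ := by by_contra h; push Not at h; nlinarith
  obtain ⟨L, hL, M, hM⟩ : ∃ L : ℕ, 1 ≤ L ∧ ∃ M : ℤ, (L : ℝ) * ρ = M := by
    set y : ℚ := 1 / (x - (s + 4 : ℕ)) - 4 with hy
    refine ⟨y.den, y.pos, y.num, ?_⟩
    have : ρ = (y : ℝ) := by rw [hρd, hy, hεd]; push_cast; ring
    rw [this]
    exact_mod_cast Rat.den_mul_eq_num y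
  set S : ℕ → ℕ := fun t => ⌈(t : ℝ) * ρ⌉₊ - 1 with hSd
  have hS : Monotone S := fun a b hab => Nat.sub_le_sub_right
    (Nat.ceil_mono (mul_le_mul_of_nonneg_right (by exact_mod_cast hab) hρ0.le)) 1
  have hS0 : S 0 = 0 := by simp [hSd]
  have hSt : ∀ t : ℕ, 1 ≤ t → (S t : ℝ) = ⌈(t : ℝ) * ρ⌉₊ - 1 := by
    intro t ht
    have : 0 < (t : ℝ) * ρ := mul_pos (by exact_mod_cast ht) hρ0
    simp only [hSd]
    rw [Nat.cast_sub (Nat.one_le_ceil_iff.mpr this)]; simp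
  have g0 : ∀ t : ℕ, 0 ≤ t * ρ - S t := by
    intro t
    rcases Nat.eq_zero_or_pos t with rfl | ht
    · simp [hS0]
    · rw [hSt t ht]
      have := Nat.ceil_lt_add_one (show 0 ≤ (t : ℝ) * ρ by positivity)
      linarith
  have g1 : ∀ t : ℕ, t * ρ - S t ≤ 1 := by
    intro t
    rcases Nat.eq_zero_or_pos t with rfl | ht
    · simp [hS0]
    · rw [hSt t ht]
      have := Nat.le_ceil ((t : ℝ) * ρ)
      linarith
  have g2 : (S L : ℝ) = L * ρ - 1 := by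
    rw [hSt L hL, hM]
    have : (0 : ℝ) ≤ M := by rw [← hM]; positivity
    have hM0 : 0 ≤ M := by exact_mod_cast this
    obtain ⟨M', rfl⟩ := Int.eq_ofNat_of_zero_le hM0
    simp
  obtain ⟨W, hW⟩ := exists_nat_ge (((s + 4 : ℕ) + ε) / ε)
  rw [div_le_iff₀ hε] at hW
  have hW0 : W ≠ 0 := by
    rintro rfl
    have : (0 : ℝ) < (s + 4 : ℕ) + ε := by positivity
    simp only [Nat.cast_zero, zero_mul] at hW
    linarith
  obtain ⟨H, hH, hF⟩ := exists_rigid hk he (chain L s S W hW0)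
  obtain ⟨n, G, dec, hreg, hG⟩ := exists_graph H hH
  have hk0 : (4 : ℝ) ≤ (s + 4 : ℕ) := by exact_mod_cast hk
  refine ⟨n, G, dec, hreg, ⟨by linarith, ?_⟩, ?_⟩
  · rw [hG _ (by linarith), hF _ h1'.le h2']
    have := chain_upper (L := L) hS hW0 hε hρ g0 g1 hW
    rwa [hεd, add_sub_cancel] at this
  · rintro r ⟨-, hr⟩
    by_contra hlt
    push Not at hlt
    have a1 : ((s + 4 : ℕ) : ℝ) ≤ max r (s + 4 : ℕ) := le_max_right _ _
    have a2 : max r (s + 4 : ℕ) < x := max_lt hlt h1'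
    have := hr.mono (le_max_left r ((s + 4 : ℕ) : ℝ))
    rw [hG _ (by linarith), hF _ a1 (by linarith)] at this
    have low := chain_lower hL hS hS0 hW0 a1 (by linarith) this
    rw [g2] at low
    have hL' : (1 : ℝ) ≤ L := by exact_mod_cast hL
    have b1 : max r (s + 4 : ℕ) - (s + 4 : ℕ) < ε := by linarith
    have b2 : (L : ℝ) * ρ - 1 + 4 * L + 1 = L * (4 + ρ) := by ring
    rw [b2] at low
    have b3 := mul_lt_mul_of_pos_right b1 (show 0 < (L : ℝ) * (4 + ρ) by positivity)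
    have b4 : ε * ((L : ℝ) * (4 + ρ)) = L := by linear_combination L * hρ
    linarith

end Pool.Agent.P.MP_3f5ded_co
end
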